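import Pool.Agent.T2h52.SO.All

set_option autoImplicit false

/-!
# MP_5e7226_co: arbitrary interior points of bodies which need not be symmetric

Let `K` be a convex body in `ℝ^d` (no symmetry is assumed), `o` an arbitrary interior point, `P` the
polar body of `K` about `o`; the gauge of `P` is the support function `h` of `K` about `o`. Let
`L = log (d+1)`.

1. The spread inequality. Let `P` be a convex body with `0` in its interior, `-P ⊆ a P`, and assume
   that the covariance matrix of the uniform measure of `P` is the identity; the barycentre of `P` may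
   be different from `0`. If the Gaussian mean of the gauge `g` of `P` (about `0`) is at most `l`, where
   `l ≥ 1` and `10^280 l^4 ≤ d`, then the mean of `(Dg(z)[w])²` over `z ∈ P` is at most
   `10^47 a l^(1/2) d^(-1/8) |w|²` for all vectors `w`.
2. The criterion. Let `n` be a norm of cotype `q` with the constant `B`, `n ≤ h ≤ C n`, and assume that
   `P` has the identity covariance and that the Gaussian mean of `n` is at most `l`. If
   `10^280 (C l)^4 ≤ d` and `(10^12 B (2C)² L³)^(11 q) 10^47 C (C l)^(1/2) ≤ d^(1/8)` then fewer than `2^d`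
   hyperplanes separate the faces of `K` from `o`.
3. Fewer than `2^d` hyperplanes suffice if `n ≤ h ≤ C n`, where `n` is the support function of a zonoid
   (about its centre), and `(10^14 C² L³)^240 ≤ d`.
4. The same is true if `n ≤ h ≤ C n`, `n(u) = G(⟪u, x_1⟫, ..., ⟪u, x_N⟫)`, where `G` is a `q`-concave
   lattice norm on `ℝ^N` with the constant `M`, and `(10^14 M C² L³)^(120 q) ≤ d`.
5. The same is true if `n ≤ h ≤ C n` for a norm `n` of type `p > 4/3` with the constant `T` and cotype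
   `q` with the constant `B`, and `(10^14 T B C² L³)^(120 q) ≤ d^(3-4/p)`.
6. Let `K` be symmetric about `c`, with the support function `h_c` about `c`, and
   `o ∈ c + (1-δ) (K - c)`, `0 < δ ≤ 1`: then `δ h_c ≤ h ≤ 2 h_c`. So if `n ≤ h_c ≤ C n` then (3), (4), (5) hold for
   the point `o` with `2C/δ` instead of `C`: for all interior points outside of the shell
   `K \ (1 - d^(-1/481)) K`, if `d` is large (`C` fixed).

The results (3)-(5) for symmetric bodies and their centres are in `HighDimensionalSpaces`. There are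
two new difficulties. First, without symmetry the two caps `{⟪x - b, e⟫ ≥ c}`, `{⟪x - b, e⟫ ≤ -c}` (`b` the
barycentre of `P`) are not images of each other; the Gaussian channel is used for two different
measures, the chi-square estimate at the large time uses that the first moments vanish, and from
the translation `γ` of `P` one has to pass to `-γ/(1 + 4ε)` in order to bound both signs of `Dg(z)[γ]`.
Secondly, for an arbitrary interior point the gauge of `P` is taken about a point (`0`) which is not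
the barycentre `b`, while the theorem on flat bodies (`MP_eba1ef_gt.AsymmetricThinSlabs` of the
starting files) has to be used about `b`, as only then the volume of the body controls the
functionals. The flatness of `P - b` is the mean of `|Dg_b(z)[z' - b]|` with the gauge `g_b` about `b`; we
use that the mean of `|Dg_b(z)[y]|` over `z ∈ P` does not depend on the base point (it is the total
variation of the indicator function of `P` in the direction `y`, divided by `d |P|`). So the flatness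
is the mean of `|Dg(z)[z' - b]|` with the gauge about `0`. If it is not small, the
Riesz product argument for the functionals `Dg(z)` on the centred body `P - b`, of which the
covariance is small by (1), gives `n` functionals `φ_i ≤ 1` on `P` and for all signs `δ` a point
`z_δ ∈ P` with `δ_i φ_i(z_δ - b) ≥ c`. The differences `(z_δ - z_{-δ})/2` are in the unit ball of `n` (the
norm), which contradicts the cotype.
-/

namespace Pool.Agent.Results.MP_5e7226_co.ArbitraryInteriorPoints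

open scoped InnerProductSpace
open MeasureTheory
open Pool.Agent.T2h52.SP Pool.Agent.T2h52.SO

/-- The space `ℝ^d`. -/
abbrev Sp (d : ℕ) : Type := EuclideanSpace ℝ (Fin d)

/-- `K` is a convex body with the interior point `o`. -/
def IsBody {d : ℕ} (K : Set (Sp d)) (o : Sp d) : Prop :=
  Convex ℝ K ∧ IsCompact K ∧ o ∈ interior K

/-- `K` is symmetric about `c`. -/
def IsSymmetricAbout {d : ℕ} (K : Set (Sp d)) (c : Sp d) : Prop := ∀ x ∈ K, c + (c - x) ∈ K

/-- `K` and `o` are separated by `H`: every face of `K` (the set of the points of `K` at which a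
functional `⟪u, ·⟫`, `u ≠ 0`, is maximal on `K`) is strictly separated from `o` by one of the
hyperplanes `{x | ⟪h.1, x⟫ = h.2}` with `h ∈ H`. -/
def SeparatesFaces {d : ℕ} (K : Set (Sp d)) (o : Sp d) (H : Finset (Sp d × ℝ)) : Prop :=
  (∀ h ∈ H, h.1 ≠ 0) ∧
    ∀ u x₀ : Sp d, u ≠ 0 → x₀ ∈ K → (∀ y ∈ K, ⟪u, y⟫_ℝ ≤ ⟪u, x₀⟫_ℝ) →
      ∃ h ∈ H, ⟪h.1, o⟫_ℝ < h.2 ∧ ∀ x ∈ K, ⟪u, x⟫_ℝ = ⟪u, x₀⟫_ℝ → h.2 < ⟪h.1, x⟫_ℝ

/-- Fewer than `2^d` hyperplanes suffice: `s(K, o) < 2^d`. -/
def FewHyperplanes {d : ℕ} (K : Set (Sp d)) (o : Sp d) : Prop :=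
  ∃ H : Finset (Sp d × ℝ), SeparatesFaces K o H ∧ H.card < 2 ^ d

/-- The polar body of `K` about `o`. -/
def polarBody {d : ℕ} (K : Set (Sp d)) (o : Sp d) : Set (Sp d) := {v | ∀ y ∈ K, ⟪v, y - o⟫_ℝ ≤ 1}

/-- The uniform measure of `P` has the barycentre `b`, and its covariance matrix is the identity. -/
def HasUnitCovariance {d : ℕ} (P : Set (Sp d)) (b : Sp d) : Prop :=
  (∀ w : Sp d, ⨍ z in P, ⟪z, w⟫_ℝ = ⟪b, w⟫_ℝ) ∧ ∀ w : Sp d, ⨍ z in P, ⟪z - b, w⟫_ℝ ^ 2 = ‖w‖ ^ 2

/-- The mean of `g` for the standard Gaussian measure of `ℝ^d`. -/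
noncomputable def gaussianMean {d : ℕ} (g : Sp d → ℝ) : ℝ :=
  (∫ y : Sp d, g y * Real.exp (-(‖y‖ ^ 2 / 2))) / ∫ y : Sp d, Real.exp (-(‖y‖ ^ 2 / 2))

/-- `n` is subadditive and absolutely homogeneous. -/
def IsNormLike {d : ℕ} (n : Sp d → ℝ) : Prop :=
  (∀ u v, n (u + v) ≤ n u + n v) ∧ ∀ (c : ℝ) u, n (c • u) = |c| * n u

/-- `g` has type `p` with the constant `T`. -/
def HasType {d : ℕ} (g : Sp d → ℝ) (p T : ℝ) : Prop :=
  ∀ (m : ℕ) (x : Fin m → Sp d),
    (∑ δ : Fin m → Bool, g (∑ i, (if δ i then (1 : ℝ) else -1) • x i)) / 2 ^ m ≤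
      T * (∑ i, g (x i) ^ p) ^ (1 / p)

/-- `g` has cotype `q` with the constant `B`. -/
def HasCotype {d : ℕ} (g : Sp d → ℝ) (q B : ℝ) : Prop :=
  ∀ (m : ℕ) (x : Fin m → Sp d), (∑ i, g (x i) ^ q) ^ (1 / q) ≤
    B * Real.sqrt ((∑ δ : Fin m → Bool, g (∑ i, (if δ i then (1 : ℝ) else -1) • x i) ^ 2) / 2 ^ m)

/-- The support function of `K` about `o` is between `n` and `C n`. -/
def IsBetween {d : ℕ} (K : Set (Sp d)) (o : Sp d) (n : Sp d → ℝ) (C : ℝ) : Prop :=
  (∀ u : Sp d, ∃ y ∈ K, n u ≤ ⟪u, y - o⟫_ℝ) ∧ ∀ u : Sp d, ∀ y ∈ K, ⟪u, y - o⟫_ℝ ≤ C * n u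

/-- `n` is the support function of a zonoid about its centre. -/
def IsZonoidal {d : ℕ} (n : Sp d → ℝ) : Prop :=
  ∃ μ : Measure (Sp d), IsFiniteMeasure μ ∧ Integrable (fun x : Sp d => ‖x‖) μ ∧
    ∀ u, n u = ∫ x, |⟪u, x⟫_ℝ| ∂μ

/-- `G` is a lattice norm (or seminorm) on `ℝ^N`, `q`-concave with the constant `M`. -/
structure IsConcaveLatticeNorm (N : ℕ) (q M : ℝ) (G : (Fin N → ℝ) → ℝ) : Prop where
  add_le : ∀ a b, G (a + b) ≤ G a + G b
  smul_eq : ∀ (c : ℝ) a, G (c • a) = |c| * G a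
  mono : ∀ a b : Fin N → ℝ, (∀ j, |a j| ≤ |b j|) → G a ≤ G b
  concave : ∀ (m : ℕ) (v : Fin m → Fin N → ℝ), (∑ i, G (v i) ^ q) ^ (1 / q) ≤
    M * G (fun j => (∑ i, |v i j| ^ q) ^ (1 / q))

/-- Fewer than `2^d` hyperplanes suffice for `K` and `o` if there is a norm `n` of one of three classes
such that `Btw n C` (the support function of `K` about some point is between `n` and `C n`), and the
dimension is large in comparison with `f C` and the constants of `n`. -/
def HoldsFor {d : ℕ} (K : Set (Sp d)) (o : Sp d) (Btw : (Sp d → ℝ) → ℝ → Prop) (f : ℝ → ℝ) :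
    Prop :=
  -- zonoids
  (∀ (n : Sp d → ℝ) (C : ℝ), 1 ≤ C → IsZonoidal n → Btw n C →
    (10 ^ 14 * f C ^ 2 * Real.log (d + 1) ^ 3) ^ 240 ≤ (d : ℝ) → FewHyperplanes K o) ∧
  -- polars of sections of the unit balls of `q`-concave lattices
  (∀ (q M C : ℝ) (N : ℕ) (G : (Fin N → ℝ) → ℝ) (x : Fin N → Sp d), 2 ≤ q → 1 ≤ M → 1 ≤ C →
    IsConcaveLatticeNorm N q M G → Btw (fun u => G fun j => ⟪u, x j⟫_ℝ) C →
    (10 ^ 14 * M * f C ^ 2 * Real.log (d + 1) ^ 3) ^ (120 * q) ≤ (d : ℝ) → FewHyperplanes K o) ∧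
  -- duals of spaces of type `p > 4/3` and finite cotype
  (∀ (n : Sp d → ℝ) (p q T B C : ℝ), 4 / 3 < p → p ≤ 2 → 2 ≤ q → 1 ≤ T → 1 ≤ B → 1 ≤ C →
    IsNormLike n → HasType n p T → HasCotype n q B → Btw n C →
    (10 ^ 14 * T * B * f C ^ 2 * Real.log (d + 1) ^ 3) ^ (120 * q) ≤ (d : ℝ) ^ (3 - 4 / p) →
    FewHyperplanes K o)

theorem avg {d : ℕ} (P : Set (Sp d)) (f : Sp d → ℝ) :
    ⨍ z in P, f z = ∫ z, f z ∂(Pool.Agent.N555.RZ.mP P) := by
  rw [average_eq', Measure.restrict_apply_univ]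
  rfl

theorem gm_eq {d : ℕ} (g : Sp d → ℝ) : gm g = gaussianMean g := by
  unfold gm gaussianMean
  rw [div_eq_inv_mul]

theorem few_of_cover {d : ℕ} (K : Set (Sp d)) (o : Sp d) (ho : o ∈ interior K)
    (h : ∃ T : Finset (Sp d), polarBody K o ⊆ ⋃ t ∈ T, (fun x => t + x) '' interior (polarBody K o) ∧
      T.card < 2 ^ d) : FewHyperplanes K o := by
  obtain ⟨T, hT1, hT2⟩ := h
  obtain ⟨H, hH, hsep⟩ := Pool.Agent.TH591.Lie.sep_of_cover K o ho T hT1
  exact ⟨H, hsep, lt_of_le_of_lt hH hT2⟩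

/-- passing from `10^14` to `4 * 10^13` -/
theorem num_le {x X y e : ℝ} (hX : 0 ≤ X) (he : 0 ≤ e) (hx : x = 4 * 10 ^ 13 * X)
    (h : (10 ^ 14 * X) ^ e ≤ y) : x ^ e ≤ y := by
  refine le_trans (Real.rpow_le_rpow ?_ ?_ he) h
  · rw [hx]; positivity
  · rw [hx]; nlinarith

/-- the dimension is at least `2` -/
theorem two_le_dim {d : ℕ} {q X k : ℝ} (hd0 : 1 ≤ d) (hq : 2 ≤ q) (hX : 1 ≤ X)
    (hnum : (10 ^ 14 * X * Real.log (d + 1) ^ 3) ^ (120 * q) ≤ (d : ℝ) ^ k) : 2 ≤ d := by
  have hl : 0 ≤ Real.log ((d : ℝ) + 1) := Real.log_nonneg (by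
    have : (0 : ℝ) ≤ d := Nat.cast_nonneg d
    linarith)
  have hl3 : 0 ≤ Real.log ((d : ℝ) + 1) ^ 3 := pow_nonneg hl 3
  refine Pool.Agent.T2h52.SQ.two_le (X := X) (k := k) hd0 hq hX (le_trans ?_ hnum)
  refine Real.rpow_le_rpow (by positivity) ?_ (by positivity)
  have h1 : 0 ≤ X * Real.log ((d : ℝ) + 1) ^ 3 := mul_nonneg (by linarith) hl3
  nlinarith

/-- the theorem for the point `o` and a norm between -/
theorem main {d : ℕ} (hd0 : 1 ≤ d) (K : Set (Sp d)) (o : Sp d) (hK : IsBody K o) :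
    HoldsFor K o (IsBetween K o) id := by
  obtain ⟨k1, k2, k3⟩ := hK
  have hL : 0 ≤ Real.log ((d : ℝ) + 1) ^ 3 := pow_nonneg (Real.log_nonneg (by
    have : (0 : ℝ) ≤ d := Nat.cast_nonneg d
    linarith)) 3
  refine ⟨?_, ?_, ?_⟩
  · intro n C hC hz hb hn
    simp only [id] at hn
    have hn' : (10 ^ 14 * (1 * C ^ 2 * Real.log (d + 1) ^ 3)) ^ (120 * (2 : ℝ)) ≤ (d : ℝ) := by
      have e : (120 * (2 : ℝ)) = ((240 : ℕ) : ℝ) := by norm_num
      rw [e, Real.rpow_natCast, one_mul, ← mul_assoc]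
      exact hn
    have hd2 : 2 ≤ d := two_le_dim (X := C ^ 2) (k := 1) hd0 (le_refl 2) (one_le_pow₀ hC) (by
      rw [Real.rpow_one]
      refine le_trans (le_of_eq ?_) hn'
      congr 1
      ring)
    have hn2 := num_le (by positivity) (by norm_num)
      (show (4 * 10 ^ 13 * 1 * C ^ 2 * Real.log (d + 1) ^ 3) = _ by ring) hn'
    exact few_of_cover K o k3 (zon img z_iso z_crt z_num z_zgm zco zim pol hd2 hC k2 k1 k3 hz
      hb.1 hb.2 hn2)
  · intro q M C N G x hq hM hC hG hb hn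
    simp only [id] at hn
    have hMC : 1 ≤ M * C ^ 2 := one_le_mul_of_one_le_of_one_le hM (one_le_pow₀ hC)
    have hn' : (10 ^ 14 * (M * C ^ 2 * Real.log (d + 1) ^ 3)) ^ (120 * q) ≤ (d : ℝ) := by
      refine le_trans (le_of_eq ?_) hn
      congr 1
      ring
    have hd2 : 2 ≤ d := two_le_dim (X := M * C ^ 2) (k := 1) hd0 hq hMC (by
      rw [Real.rpow_one]
      refine le_trans (le_of_eq ?_) hn'
      congr 1
      ring)
    have hn2 := num_le (by positivity) (by positivity)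
      (show (4 * 10 ^ 13 * M * C ^ 2 * Real.log (d + 1) ^ 3) = _ by ring) hn'
    exact few_of_cover K o k3 (lat img z_iso z_crt z_num z_lgm lco_ lia_ pol hd2 hq hM hC k2 k1 k3
      ⟨hG.add_le, hG.smul_eq, hG.mono, hG.concave⟩ hb.1 hb.2 hn2)
  · intro n p q T B C hp hp2 hq hT hB hC hnn hty hco hb hn
    simp only [id] at hn
    have hTB : 1 ≤ T * B := one_le_mul_of_one_le_of_one_le hT hB
    have hMC : 1 ≤ T * B * C ^ 2 := one_le_mul_of_one_le_of_one_le hTB (one_le_pow₀ hC)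
    have hn' : (10 ^ 14 * (T * B * C ^ 2 * Real.log (d + 1) ^ 3)) ^ (120 * q) ≤
        (d : ℝ) ^ (3 - 4 / p) := by
      refine le_trans (le_of_eq ?_) hn
      congr 1
      ring
    have hd2 : 2 ≤ d := two_le_dim (X := T * B * C ^ 2) (k := 3 - 4 / p) hd0 hq hMC (by
      refine le_trans (le_of_eq ?_) hn'
      congr 1
      ring)
    have hn2 := num_le (by positivity) (by positivity)
      (show (4 * 10 ^ 13 * T * B * C ^ 2 * Real.log (d + 1) ^ 3) = _ by ring) hn'
    exact few_of_cover K o k3 (typ img z_iso z_crt z_tnu z_tgm tyi pol hd2 hp hp2 hq hT hB hC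
      k2 k1 k3 hnn.1 hnn.2 hb.1 hb.2 hty hco hn2)

/-- a point outside of the shell -/
theorem between_of_sym {d : ℕ} {K : Set (Sp d)} {c o y0 : Sp d} {δ C : ℝ} {n : Sp d → ℝ}
    (hsym : IsSymmetricAbout K c) (hδ : 0 < δ) (hδ1 : δ ≤ 1) (hC : 1 ≤ C) (hy : y0 ∈ K)
    (ho : o = c + (1 - δ) • (y0 - c)) (h : IsBetween K c n C) :
    IsBetween K o (fun u => δ * n u) (2 * C / δ) := by
  obtain ⟨h1, h2⟩ := h
  have hn : ∀ u, 0 ≤ n u := fun u => by
    have a1 := h2 u y0 hy
    have a2 := h2 u _ (hsym y0 hy)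
    have e : c + (c - y0) - c = -(y0 - c) := by abel
    rw [e, inner_neg_right] at a2
    nlinarith
  refine ⟨fun u => ?_, fun u y hyK => ?_⟩
  · -- a maximum point of `⟪u, ·⟫` among the given ones and `y0`
    obtain ⟨y, hyK, hy1⟩ := h1 u
    have e : ∀ z : Sp d, ⟪u, z - o⟫_ℝ = ⟪u, z - c⟫_ℝ - (1 - δ) * ⟪u, y0 - c⟫_ℝ := by
      intro z
      rw [ho, ← inner_smul_right, ← inner_sub_right]
      congr 1
      abel
    by_cases hc : ⟪u, y0 - c⟫_ℝ ≤ ⟪u, y - c⟫_ℝ
    · refine ⟨y, hyK, ?_⟩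
      rw [e]
      have : (1 - δ) * ⟪u, y0 - c⟫_ℝ ≤ (1 - δ) * ⟪u, y - c⟫_ℝ :=
        mul_le_mul_of_nonneg_left hc (by linarith)
      nlinarith
    · push Not at hc
      refine ⟨y0, hy, ?_⟩
      rw [e]
      nlinarith
  · have e : ⟪u, y - o⟫_ℝ = ⟪u, y - c⟫_ℝ - (1 - δ) * ⟪u, y0 - c⟫_ℝ := by
      rw [ho, ← inner_smul_right, ← inner_sub_right]
      congr 1
      abel
    have a1 := h2 u y hyK
    have a2 := h2 u _ (hsym y0 hy)
    have e2 : c + (c - y0) - c = -(y0 - c) := by abel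
    rw [e2, inner_neg_right] at a2
    have hCn : 0 ≤ C * n u := mul_nonneg (by linarith) (hn u)
    have e3 : 2 * C / δ * (δ * n u) = 2 * (C * n u) := by
      field_simp
    rw [e3, e]
    nlinarith

theorem result :
    -- 1. the spread inequality
    (∀ (d : ℕ) (P : Set (Sp d)) (a l : ℝ) (b : Sp d), IsBody P 0 → 1 ≤ a →
      (∀ x ∈ P, -(a⁻¹ • x) ∈ P) → HasUnitCovariance P b → 1 ≤ l → gaussianMean (gauge P) ≤ l →
      10 ^ 280 * l ^ 4 ≤ (d : ℝ) → ∀ w : Sp d, ⨍ z in P, (fderiv ℝ (gauge P) z w) ^ 2 ≤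
        10 ^ 47 * a * l ^ ((1 : ℝ) / 2) / (d : ℝ) ^ ((1 : ℝ) / 8) * ‖w‖ ^ 2) ∧
    -- 2. the criterion
    (∀ (d : ℕ) (K : Set (Sp d)) (o b : Sp d) (n : Sp d → ℝ) (C q B l : ℝ), IsBody K o →
      1 ≤ C → IsNormLike n → IsBetween K o n C → HasUnitCovariance (polarBody K o) b →
      gaussianMean n ≤ l → 1 ≤ l → 10 ^ 280 * (C * l) ^ 4 ≤ (d : ℝ) → 2 ≤ q → 1 ≤ B →
      HasCotype n q B →
      (10 ^ 12 * B * (2 * C) ^ 2 * Real.log (d + 1) ^ 3) ^ (11 * q) *
        (10 ^ 47 * C * (C * l) ^ ((1 : ℝ) / 2)) ≤ (d : ℝ) ^ ((1 : ℝ) / 8) → FewHyperplanes K o) ∧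
    -- 3., 4., 5. the three classes, for all interior points
    (∀ (d : ℕ) (K : Set (Sp d)) (o : Sp d), 1 ≤ d → IsBody K o →
      HoldsFor K o (IsBetween K o) id) ∧
    -- 6. symmetric bodies and points outside of a thin shell
    (∀ (d : ℕ) (K : Set (Sp d)) (c o y : Sp d) (δ : ℝ), 1 ≤ d → IsBody K c →
      IsSymmetricAbout K c → 0 < δ → δ ≤ 1 → y ∈ K → o = c + (1 - δ) • (y - c) →
      HoldsFor K o (IsBetween K c) fun C => 2 * C / δ) := by
  refine ⟨?_, ?_, fun d K o hd hK => main hd K o hK, ?_⟩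
  · intro d P a l b hP ha has hI hl hg hd w
    obtain ⟨p1, p2, p3⟩ := hP
    rw [avg]
    refine spr_ineq z_spr (b := b) ⟨p1, p2, p3, ha, has⟩ (fun w => ?_) (fun w => ?_) hl
      (by rwa [gm_eq]) hd w
    · rw [← avg]
      exact hI.1 w
    · rw [← avg]
      exact hI.2 w
  · intro d K o b n C q B l hK hC hnn hb hI hg hl hd hq hB hco hn
    obtain ⟨k1, k2, k3⟩ := hK
    obtain ⟨hP, hQ, hgQ, hs⟩ := pol d C K o n k2 k1 k3 hC hnn.1 hnn.2 hb.1 hb.2
    have hd2 : 2 ≤ d := by
      have h1 : (1 : ℝ) ≤ (C * l) ^ 4 := one_le_pow₀ (by nlinarith)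
      have h2 : (2 : ℝ) ≤ d := by
        refine le_trans ?_ hd
        have h3 : (2 : ℝ) ≤ 10 ^ 280 :=
          calc (2 : ℝ) ≤ 10 ^ 1 := by norm_num
            _ ≤ 10 ^ 280 := pow_le_pow_right₀ (by norm_num) (by norm_num)
        exact h3.trans (le_mul_of_one_le_right (pow_nonneg (by norm_num) _) h1)
      exact_mod_cast h2
    have hgn : gauge {u : Sp d | n u ≤ 1} = n := funext hgQ
    have hs' : ∀ u, gauge {u : Sp d | n u ≤ 1} u ≤ gauge (polarBody K o) u ∧
        gauge (polarBody K o) u ≤ C * gauge {u : Sp d | n u ≤ 1} u := fun u => by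
      rw [hgQ u]; exact hs u
    have e0 : ∀ X : Set (Sp d), (fun x => (LinearEquiv.refl ℝ (Sp d)) x) '' X = X := fun X => by
      simp
    have e1 : (LinearEquiv.refl ℝ (Sp d)) '' polarBody K o = polarBody K o := e0 _
    have e2 : (LinearEquiv.refl ℝ (Sp d)) '' {u : Sp d | n u ≤ 1} = {u : Sp d | n u ≤ 1} := e0 _
    refine few_of_cover K o k3 (z_crt d (polarBody K o) {u : Sp d | n u ≤ 1}
      (LinearEquiv.refl ℝ (Sp d)) C l q B b hd2 hP (fun w => ?_) hQ hs' ?_ ?_ hl hd hq hB ?_ hn)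
    · rw [← avg]
      exact hI.1 w
    · rw [e1]
      intro w
      rw [← avg]
      exact hI.2 w
    · rw [e2, hgn, gm_eq]
      exact hg
    · rw [hgn]
      exact hco
  · intro d K c o y δ hd hK hsym hδ hδ1 hy ho
    obtain ⟨k1, k2, k3⟩ := hK
    have hKo : IsBody K o := by
      refine ⟨k1, k2, ?_⟩
      have h1 := k1.combo_interior_closure_mem_interior k3 (subset_closure hy) hδ
        (by linarith : 0 ≤ 1 - δ) (by ring)
      have e : o = δ • c + (1 - δ) • y := by
        rw [ho, smul_sub, sub_smul, sub_smul, one_smul]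
        module
      rw [e]
      exact h1
    obtain ⟨m1, m2, m3⟩ := main hd K o hKo
    have hC' : ∀ C : ℝ, 1 ≤ C → 1 ≤ 2 * C / δ := fun C hC => by
      rw [le_div_iff₀ hδ]
      linarith
    refine ⟨?_, ?_, ?_⟩
    · intro n C hC hz hb hn
      refine m1 (fun u => δ * n u) (2 * C / δ) (hC' C hC) ?_
        (between_of_sym hsym hδ hδ1 hC hy ho hb) hn
      obtain ⟨μ, hμ, hi, hn⟩ := hz
      refine ⟨ENNReal.ofReal δ • μ, ?_, hi.smul_measure (by simp), fun u => ?_⟩
      · exact Measure.smul_finite μ ENNReal.ofReal_ne_top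
      · show δ * n u = _
        rw [hn u, integral_smul_measure, ENNReal.toReal_ofReal hδ.le, smul_eq_mul]
    · intro q M C N G x hq hM hC hG hb hn
      refine m2 q M (2 * C / δ) N (fun a => δ * G a) x hq hM (hC' C hC) ?_
        (between_of_sym hsym hδ hδ1 hC hy ho hb) hn
      refine ⟨fun a b => ?_, fun c a => ?_, fun a b hab => ?_, fun m v => ?_⟩
      · have := hG.add_le a b
        nlinarith
      · rw [hG.smul_eq]; ring
      · exact mul_le_mul_of_nonneg_left (hG.mono a b hab) hδ.le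
      · have hG0 : ∀ a, 0 ≤ G a := fun a => by
          have h1 := hG.add_le a ((-1 : ℝ) • a)
          have h2 := hG.smul_eq (-1) a
          have h3 := hG.smul_eq 0 (a + (-1 : ℝ) • a)
          have h4 : (0 : ℝ) • (a + (-1 : ℝ) • a) = a + (-1 : ℝ) • a := by
            rw [zero_smul, neg_one_smul, add_neg_cancel]
          rw [h4, abs_zero, zero_mul] at h3
          rw [abs_neg, abs_one, one_mul] at h2
          linarith
        have hq0 : 0 < q := by linarith
        have e : ∑ i, (δ * G (v i)) ^ q = δ ^ q * ∑ i, G (v i) ^ q := by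
          rw [Finset.mul_sum]
          exact Finset.sum_congr rfl fun i _ => Real.mul_rpow hδ.le (hG0 _)
        have e2 : (δ ^ q * ∑ i, G (v i) ^ q) ^ (1 / q) = δ * (∑ i, G (v i) ^ q) ^ (1 / q) := by
          rw [Real.mul_rpow (by positivity) (Finset.sum_nonneg fun i _ =>
            Real.rpow_nonneg (hG0 _) _), ← Real.rpow_mul hδ.le, mul_one_div_cancel hq0.ne',
            Real.rpow_one]
        show (∑ i, (δ * G (v i)) ^ q) ^ (1 / q) ≤ M * (δ * G _)
        rw [e, e2]
        have := hG.concave m v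
        nlinarith
    · intro n p q T B C hp hp2 hq hT hB hC hnn hty hco hb hn
      have hn0 : ∀ u, 0 ≤ n u := fun u => by
        have h1 := hnn.1 u ((-1 : ℝ) • u)
        have h2 := hnn.2 (-1) u
        have h3 := hnn.2 0 (u + (-1 : ℝ) • u)
        have h4 : (0 : ℝ) • (u + (-1 : ℝ) • u) = u + (-1 : ℝ) • u := by
          rw [zero_smul, neg_one_smul, add_neg_cancel]
        rw [h4, abs_zero, zero_mul] at h3
        rw [abs_neg, abs_one, one_mul] at h2
        linarith
      have hpow : ∀ (r : ℝ), 0 < r → ∀ (m : ℕ) (x : Fin m → Sp d),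
          (∑ i, (δ * n (x i)) ^ r) ^ (1 / r) = δ * (∑ i, n (x i) ^ r) ^ (1 / r) := by
        intro r hr m x
        have e : ∑ i, (δ * n (x i)) ^ r = δ ^ r * ∑ i, n (x i) ^ r := by
          rw [Finset.mul_sum]
          exact Finset.sum_congr rfl fun i _ => Real.mul_rpow hδ.le (hn0 _)
        rw [e, Real.mul_rpow (by positivity) (Finset.sum_nonneg fun i _ =>
          Real.rpow_nonneg (hn0 _) _), ← Real.rpow_mul hδ.le, mul_one_div_cancel hr.ne',
          Real.rpow_one]
      refine m3 (fun u => δ * n u) p q T B (2 * C / δ) hp hp2 hq hT hB (hC' C hC) ?_ ?_ ?_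
        (between_of_sym hsym hδ hδ1 hC hy ho hb) hn
      · refine ⟨fun u v => ?_, fun c u => ?_⟩
        · have := hnn.1 u v
          nlinarith
        · show δ * n (c • u) = _
          rw [hnn.2]; ring
      · intro m x
        show (∑ η : Fin m → Bool, δ * n (∑ i, (if η i then (1 : ℝ) else -1) • x i)) / 2 ^ m ≤
          T * (∑ i, (δ * n (x i)) ^ p) ^ (1 / p)
        rw [hpow p (by linarith), ← Finset.mul_sum, mul_div_assoc]
        have := hty m x
        calc δ * ((∑ η : Fin m → Bool, n (∑ i, (if η i then (1 : ℝ) else -1) • x i)) / 2 ^ m)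
            ≤ δ * (T * (∑ i, n (x i) ^ p) ^ (1 / p)) := by gcongr
          _ = _ := by ring
      · intro m x
        show (∑ i, (δ * n (x i)) ^ q) ^ (1 / q) ≤ B * Real.sqrt
          ((∑ η : Fin m → Bool, (δ * n (∑ i, (if η i then (1 : ℝ) else -1) • x i)) ^ 2) / 2 ^ m)
        have e : (∑ η : Fin m → Bool,
            (δ * n (∑ i, (if η i then (1 : ℝ) else -1) • x i)) ^ 2) / 2 ^ m = δ ^ 2 *
            ((∑ η : Fin m → Bool, n (∑ i, (if η i then (1 : ℝ) else -1) • x i) ^ 2) / 2 ^ m) := by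
          rw [← mul_div_assoc, Finset.mul_sum]
          congr 1
          exact Finset.sum_congr rfl fun η _ => by ring
        rw [hpow q (by linarith), e, Real.sqrt_mul (sq_nonneg δ), Real.sqrt_sq hδ.le]
        have := hco m x
        calc δ * (∑ i, n (x i) ^ q) ^ (1 / q) ≤ δ * (B * Real.sqrt
              ((∑ η : Fin m → Bool, n (∑ i, (if η i then (1 : ℝ) else -1) • x i) ^ 2) / 2 ^ m)) := by
              gcongr
          _ = _ := by ring

end Pool.Agent.Results.MP_5e7226_co.ArbitraryInteriorPoints
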