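import Pool.Agent.T2h52.FC.All

set_option autoImplicit false

/-!
# MP_5e7226_co: approximate cross-bodies are the only obstruction; norms of finite cotype

Let `K` be a convex body in `ℝ^d`, `o` an interior point, `L = log (d+1)`. The conjecture says that
`s(K, o) ≤ 2^d`, with equality only for cross-bodies centred at `o`.

1. Let `K` have the asymmetry at most `a` about `o`: `o - (x - o)/a ∈ K` for `x ∈ K` (`a = 1` if `K` is
   symmetric about `o`). Let `n ≥ 1` with `(10^31 n a³ L³)^512 ≤ d`. Then `s(K, o) < 2^d`, or there are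
   `n` points `x_1, ..., x_n ∈ K` such that `o + Σ c_i (x_i - o) ∈ K` implies `Σ |c_i| ≤ 10^11 a² L²`. That is,
   the section of `K` with the plane through `o` spanned by the `x_i` is, up to the factor
   `10^11 a³ L²`, the `n`-dimensional cross-body with the half-diagonals `(x_i - o)/a`, centred at `o`. So
   every counterexample in a high dimension has a section of the dimension `d^(1/512)`, up to
   logarithms, which is a cross-body centred at `o` up to a factor `log²`.
2. Let the support function of `K` about `o` be between `n` and `C n`, where `n` is a norm of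
   cotype `q` with the constant `B`, and let `(10^14 B C² L³)^(2000 q) ≤ d`. Then `s(K, o) < 2^d`.
3. Let `K` be symmetric about `o` and let the norm with the unit ball `K - o` have the type `p > 1`
   with the constant `T`, and let `(10^14 T L³)^(2000 p/(p-1)) ≤ d`. Then `s(K, o) < 2^d`.

In particular the conjecture is true, with strict inequality, for the unit balls of all subspaces of
dimension `d ≥ d₀(X)` of a Banach space `X` of nontrivial type, and for the polars of the unit balls
of the subspaces of dimension `d ≥ d₀(X)` of a Banach space `X` of finite cotype.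

In the earlier results `HighDimensionalSpaces` and `ArbitraryInteriorPoints` it was assumed that the
norm is in one of three classes (zonoids, `q`-concave lattices, type `> 4/3`), since only for these
classes a bound for the Gaussian mean of the gauge of the polar body `P` in the isotropic position
was available. Here we prove (for an arbitrary isotropic convex body `P ⊆ Q`, `Q` symmetric, with the
barycentre `0`) that the Gaussian mean of the gauge of `Q` is at most `10^14 L^(3/2) d^(15/64)`, and the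
exponent is less than `1/4`, which is what the spread inequality needs. The ideas of the proof:
the barycentre `a(w)` of the tilted measure `exp (√s ⟪x, w⟫ - s |x|²/2) dx` on `P` is a function with
values in `P`; after an average over shifts its linear part is `√s (1 - S_s)`, where
`S_s = E Z a ⊗ a`. The linear part of a function with values in `Q` has a Gaussian mean of the norm at
most `10^5 d^(1/64)`: this is a quantitative `K`-convexity with a small power instead of a logarithm,
by Mehler's formula and 15 steps of Richardson extrapolation. The trace of `S_s` is at most `5 s d` for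
`s ≤ 1/(10^14 L³ √d)` (log-concavity of the law of the logarithm of the partition function and
exponential moments of linear functionals), and grows at most like `s^5` (the second derivative is
controlled by the Poincaré inequality of Brascamp and Lieb for quadratic functions, Prékopa-Leindler
and Nesbitt's inequality). So `S_s` is small for `s = d^(1/16 - 1/2)` up to logarithms, outside of a
subspace of dimension at most `d^(13/16)`; on this subspace the argument is repeated with the
projection, for which larger `s` are possible.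
-/

namespace Pool.Agent.Results.MP_5e7226_co.CrossBodySections

open scoped InnerProductSpace
open MeasureTheory
open Pool.Agent.T2h52.FC

/-- The space `ℝ^d`. -/
abbrev Sp (d : ℕ) : Type := EuclideanSpace ℝ (Fin d)

/-- `K` is a convex body with the interior point `o`. -/
def IsBody {d : ℕ} (K : Set (Sp d)) (o : Sp d) : Prop :=
  Convex ℝ K ∧ IsCompact K ∧ o ∈ interior K

/-- `K` is symmetric about `o`. -/
def IsSymmetricAbout {d : ℕ} (K : Set (Sp d)) (o : Sp d) : Prop := ∀ x ∈ K, o + (o - x) ∈ K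

/-- `K` and `o` are separated by `H`: every face of `K` (the set of the points of `K` at which a
functional `⟪u, ·⟫`, `u ≠ 0`, is maximal on `K`) is strictly separated from `o` by one of the
hyperplanes `{x | ⟪h.1, x⟫ = h.2}` with `h ∈ H`. -/
def SeparatesFaces {d : ℕ} (K : Set (Sp d)) (o : Sp d) (H : Finset (Sp d × ℝ)) : Prop :=
  (∀ h ∈ H, h.1 ≠ 0) ∧
    ∀ u x₀ : Sp d, u ≠ 0 → x₀ ∈ K → (∀ y ∈ K, ⟪u, y⟫_ℝ ≤ ⟪u, x₀⟫_ℝ) →
      ∃ h ∈ H, ⟪h.1, o⟫_ℝ < h.2 ∧ ∀ x ∈ K, ⟪u, x⟫_ℝ = ⟪u, x₀⟫_ℝ → h.2 < ⟪h.1, x⟫_ℝ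

/-- Fewer than `2^d` hyperplanes suffice: `s(K, o) < 2^d`. -/
def FewHyperplanes {d : ℕ} (K : Set (Sp d)) (o : Sp d) : Prop :=
  ∃ H : Finset (Sp d × ℝ), SeparatesFaces K o H ∧ H.card < 2 ^ d

/-- `n` is subadditive and absolutely homogeneous. -/
def IsNormLike {d : ℕ} (n : Sp d → ℝ) : Prop :=
  (∀ u v, n (u + v) ≤ n u + n v) ∧ ∀ (c : ℝ) u, n (c • u) = |c| * n u

/-- `g` has type `p` with the constant `T`. -/
def HasType {d : ℕ} (g : Sp d → ℝ) (p T : ℝ) : Prop :=
  ∀ (m : ℕ) (x : Fin m → Sp d),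
    (∑ δ : Fin m → Bool, g (∑ i, (if δ i then (1 : ℝ) else -1) • x i)) / 2 ^ m ≤
      T * (∑ i, g (x i) ^ p) ^ (1 / p)

/-- `g` has cotype `q` with the constant `B`. -/
def HasCotype {d : ℕ} (g : Sp d → ℝ) (q B : ℝ) : Prop :=
  ∀ (m : ℕ) (x : Fin m → Sp d), (∑ i, g (x i) ^ q) ^ (1 / q) ≤
    B * Real.sqrt ((∑ δ : Fin m → Bool, g (∑ i, (if δ i then (1 : ℝ) else -1) • x i) ^ 2) / 2 ^ m)

/-- The support function of `K` about `o` is between `n` and `C n`. -/
def IsBetween {d : ℕ} (K : Set (Sp d)) (o : Sp d) (n : Sp d → ℝ) (C : ℝ) : Prop :=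
  (∀ u : Sp d, ∃ y ∈ K, n u ≤ ⟪u, y - o⟫_ℝ) ∧ ∀ u : Sp d, ∀ y ∈ K, ⟪u, y - o⟫_ℝ ≤ C * n u

/-- The points `x_1, ..., x_n` of `K` span, together with `o`, an approximate cross-body of `K`
centred at `o`: `Σ |c_i| ≤ A` for all points `o + Σ c_i (x_i - o)` of `K`. -/
def IsCrossSection {d n : ℕ} (K : Set (Sp d)) (o : Sp d) (A : ℝ) (x : Fin n → Sp d) : Prop :=
  (∀ i, x i ∈ K) ∧ ∀ c : Fin n → ℝ, o + ∑ i, c i • (x i - o) ∈ K → ∑ i, |c i| ≤ A

theorem few_of_cover {d : ℕ} (K : Set (Sp d)) (o : Sp d) (ho : o ∈ interior K)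
    (h : ∃ T : Finset (Sp d), Pool.Agent.TH591.Lie.polarAt K o ⊆
      ⋃ t ∈ T, (fun x => t + x) '' interior (Pool.Agent.TH591.Lie.polarAt K o) ∧
      T.card < 2 ^ d) : FewHyperplanes K o := by
  obtain ⟨T, hT1, hT2⟩ := h
  obtain ⟨H, hH, hsep⟩ := Pool.Agent.TH591.Lie.sep_of_cover K o ho T hT1
  exact ⟨H, hsep, lt_of_le_of_lt hH hT2⟩

theorem log3_nonneg (d : ℕ) : 0 ≤ Real.log ((d : ℝ) + 1) ^ 3 := pow_nonneg (Real.log_nonneg (by
    have : (0 : ℝ) ≤ d := Nat.cast_nonneg d
    linarith)) 3

theorem result :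
    -- 1. few hyperplanes or an approximate cross-body section
    (∀ (d n : ℕ) (K : Set (Sp d)) (o : Sp d) (a : ℝ), 1 ≤ d → 1 ≤ n → IsBody K o → 1 ≤ a →
      (∀ x ∈ K, o - a⁻¹ • (x - o) ∈ K) →
      (10 ^ 31 * (n : ℝ) * a ^ 3 * Real.log (d + 1) ^ 3) ^ 512 ≤ (d : ℝ) →
      FewHyperplanes K o ∨
        ∃ x : Fin n → Sp d, IsCrossSection K o (10 ^ 11 * a ^ 2 * Real.log (d + 1) ^ 2) x) ∧
    -- 2. finite cotype
    (∀ (d : ℕ) (K : Set (Sp d)) (o : Sp d) (n : Sp d → ℝ) (C q B : ℝ), 1 ≤ d → IsBody K o →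
      1 ≤ C → 2 ≤ q → 1 ≤ B → IsNormLike n → HasCotype n q B → IsBetween K o n C →
      (10 ^ 14 * B * C ^ 2 * Real.log (d + 1) ^ 3) ^ (2000 * q) ≤ (d : ℝ) → FewHyperplanes K o) ∧
    -- 3. nontrivial type
    (∀ (d : ℕ) (K : Set (Sp d)) (o : Sp d) (p T : ℝ), 1 ≤ d → IsBody K o → IsSymmetricAbout K o →
      1 < p → p ≤ 2 → 1 ≤ T → HasType (gauge ((fun y => y - o) '' K)) p T →
      (10 ^ 14 * T * Real.log (d + 1) ^ 3) ^ (2000 * (p / (p - 1))) ≤ (d : ℝ) →
      FewHyperplanes K o) := by
  refine ⟨?_, ?_, ?_⟩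
  · intro d n K o a hd hn hK ha has hnum
    obtain ⟨k1, k2, k3⟩ := hK
    have hL := log3_nonneg d
    have hn1 : (1 : ℝ) ≤ n := by exact_mod_cast hn
    have hna : 1 ≤ (n : ℝ) * a ^ 3 := one_le_mul_of_one_le_of_one_le hn1 (one_le_pow₀ ha)
    have hd2 : 2 ≤ d := by
      refine two_le (X := 10 ^ 31 * (n : ℝ) * a ^ 3 * Real.log (d + 1) ^ 3) (e := 512) hd ?_
        (by norm_num) ?_
      · have h1 : Real.log ((d : ℝ) + 1) ^ 3 ≤ (n : ℝ) * a ^ 3 * Real.log (d + 1) ^ 3 :=
          le_mul_of_one_le_left hL hna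
        nlinarith
      · have e : (512 : ℝ) = ((512 : ℕ) : ℝ) := by norm_num
        rw [e, Real.rpow_natCast]
        exact hnum
    rcases Dich.cross z_mbt hd2 k1 k2 k3 ha has hn hnum with h | ⟨x, hx⟩
    · exact Or.inl (few_of_cover K o k3 h)
    · exact Or.inr ⟨x, hx⟩
  · intro d K o n C q B hd hK hC hq hB hnn hco hb hnum
    obtain ⟨k1, k2, k3⟩ := hK
    have hL := log3_nonneg d
    have hBC : 1 ≤ B * C ^ 2 := one_le_mul_of_one_le_of_one_le hB (one_le_pow₀ hC)
    have hd2 : 2 ≤ d := by
      refine two_le hd ?_ (by linarith) hnum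
      have h1 : Real.log ((d : ℝ) + 1) ^ 3 ≤ B * C ^ 2 * Real.log (d + 1) ^ 3 :=
        le_mul_of_one_le_left hL hBC
      nlinarith
    exact few_of_cover K o k3 (cot z_mbt hd2 hq hB hC k2 k1 k3 hnn.1 hnn.2 hb.1 hb.2 hco hnum)
  · intro d K o p T hd hK hsym hp hp2 hT hty hnum
    obtain ⟨k1, k2, k3⟩ := hK
    have hL := log3_nonneg d
    have hp1 : 0 < p - 1 := by linarith
    have hr : 1 ≤ p / (p - 1) := by
      rw [le_div_iff₀ hp1]
      linarith
    have hd2 : 2 ≤ d := by
      refine two_le hd ?_ (by linarith) hnum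
      have h1 : Real.log ((d : ℝ) + 1) ^ 3 ≤ T * Real.log (d + 1) ^ 3 :=
        le_mul_of_one_le_left hL hT
      nlinarith
    exact few_of_cover K o k3 (typ1 z_mbt hd2 k1 k2 k3 hsym hp hp2 hT hty hnum)

end Pool.Agent.Results.MP_5e7226_co.CrossBodySections
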