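import Pool.Agent.T2h52.SP.All

set_option autoImplicit false

/-!
# MP_5e7226_co: spaces of type `> 4/3`, bodies close to zonoids, and other symmetric bodies

Let `K` be a convex body in `ℝ^d`, symmetric about its interior point `o`, and let `P` be its polar
body about `o`. The gauge of `P` is the support function `h` of `K` about `o`.

1. The spread inequality. Let the symmetric convex body `P` be isotropic (the covariance of the
   uniform measure is the identity), with the Gaussian mean of its gauge `g` at most `l`, where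
   `l ≥ 1` and `10^180 l^4 ≤ d`. Then the mean of `(Dg(z)[w])²` over `z ∈ P` is at most
   `10^30 l^(2/3) d^(-1/6) |w|²`, for all vectors `w`: no direction carries more than the part
   `C l^(2/3) d^(-1/6)` of the derivative of the gauge. Nothing is assumed about symmetries.
2. The criterion. If `P` is isotropic and the Gaussian mean of `h` is at most `l` as in (1) then
   either the faces of `K` are separated from `o` by fewer than `2^d` hyperplanes or `P` has a linear
   image in `ℝ^n` between `[-κ, κ]^n` and `[-1, 1]^n`, `κ = 1/(10^10 log(d+1)²)`, for every `n ≥ 1` with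
   `10^94 n^4 l^(2/3) log(d+1)^10 ≤ d^(1/6)`. The second case is impossible if `h` has finite cotype
   `q` with a constant `B` such that `(10^7 B log(d+1))^(17q) 10^30 l^(2/3) ≤ d^(1/6)`.
3. Type and cotype. If `h` has type `p > 4/3` with the constant `T` and cotype `q` with the constant
   `B`, and `(10^8 T B log(d+1))^(120 q) ≤ d^(3-4/p)`, then fewer than `2^d` hyperplanes suffice. As
   type `p > 1` implies finite cotype (Maurey and Pisier) this means: for every infinite-dimensional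
   Banach space `X` of type `p > 4/3` the (dual form of the) conjecture, with strict inequality, is
   true for the unit balls of all subspaces of `X` of sufficiently high dimension. Type and cotype
   are isomorphic invariants, so the same is true for bodies at a bounded Banach-Mazur distance
   from these.
4. Zonoids. Let `Z` be a zonoid with `Z ⊆ K - o ⊆ C Z` and `(10^8 C log(d+1))^240 ≤ d`. Then fewer
   than `2^d` hyperplanes suffice: for all symmetric bodies at the Banach-Mazur distance at most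
   `d^(1/241)` from a zonoid, for large `d`.
5. Lattices. The same is true if `h` is equivalent, with the constant `C`, to
   `u ↦ G(⟪u, x_1⟫, ..., ⟪u, x_N⟫)` for a `q`-concave lattice norm `G` on `ℝ^N`, for any `N`, with the
   constant `M`, if `(10^8 M C log(d+1))^(120 q) ≤ d`: for all bodies `K` such that `(ℝ^d, h)` is
   at a small distance from a subspace of a `q`-concave Banach lattice.

For `C = 1`, zonoids and the polars of subspaces of `L_q` are covered by earlier results (the theorem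
`MP_eba1ef_gt.LqSumsOfSmallSpaces` of the starting files and `MinkowskiSumsOfSmallBodies`), by a
method which uses second derivatives of the gauge and is not stable under passing to equivalent norms.

The proof of (1). Let `e` be an eigenvector of the form `E (Dg(z)[w])²` for the largest eigenvalue
`λ`, `K_1 = {x ∈ P : ⟪x, e⟫ ≥ 1/2}` (of volume at least `10^(-10) |P|`), `K_2 = -K_1`. Add to the
uniform measures of `K_1`, `K_2`, centred at their barycentres, a Gaussian vector with the variance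
`h`. The affinity `I(h)` of the two densities `f_a, f_b` has the derivative
`(1/2) ∫ √(f_a f_b) |∇σ|²`, `σ = (1/2) log (f_b/f_a)` (heat equation), and by the Prékopa-Leindler
inequality, as `(K_1 + K_2)/2 ⊆ P`, `∫ √(f_a f_b) exp (h |∇σ|²/2) ≤ |P|/|K_1|`. So
`h (log(|P|/|K_1|) - log I(h))` is nondecreasing. For `h = C √d` the affinity is at least `1/4` (a
chi-square computation with the exponential tails of linear functionals). Thus
`I(h) ≥ exp (-C √d / h)` for small `h`: there are couplings of `K_1` and `K_2` in which, with the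
small probability `exp (-C √d/h)`, the displacement is the vector between the barycentres up to an
error of the size `√(h d)`. A ball of the radius `2 √(hd)` is covered by `2 exp (32 l² h d/ε²)`
translates of `ε P` (dual Sudakov inequality), so there is one translation `γ` with `⟪γ, e⟫ ≥ 1`,
`g(γ) ≤ 2` such that `P` and `γ + (1 + 4ε) P` have the part `exp (-r)` of the volume in common,
`r = C (1 + √d/h + l² h d/ε²)`. By the Brunn-Minkowski inequality the part of `P` which is moved out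
of `(1 + 4ετ) P` by `-τγ` is at most `τ r`; this is a weak type estimate for `Dg(z)[γ]` and gives
`λ ≤ λ ⟪γ, e⟫² ≤ E (Dg(z)[γ])² ≤ 32 ε² + 26 (r+1)/d`. We choose `ε² = l^(2/3) d^(-1/6)`,
`h = ε⁴/l²`. Part 2 follows from (1) and the theorem on spread bodies
(`MP_eba1ef_gt.SpreadFiniteCotype` of the starting files). In (3) the Gaussian mean is bounded by
`C T (d log d)^(1/p - 1/2)` by sampling `d log d` points of `P` with a large covariance; in (4) and (5)
it is bounded since linear functionals of isotropic bodies and of Gaussian vectors have the same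
moments up to constants.
-/

namespace Pool.Agent.Results.MP_5e7226_co.HighDimensionalSpaces

open scoped InnerProductSpace
open MeasureTheory
open Pool.Agent.T2h52.SP

/-- The space `ℝ^d`. -/
abbrev Sp (d : ℕ) : Type := EuclideanSpace ℝ (Fin d)

/-- `K` is a convex body, symmetric about the interior point `o`. -/
def IsSymmetricBody {d : ℕ} (K : Set (Sp d)) (o : Sp d) : Prop :=
  Convex ℝ K ∧ IsCompact K ∧ o ∈ interior K ∧ ∀ x ∈ K, o + (o - x) ∈ K

/-- `K` and `o` are separated by `H`: every face of `K` (the set of the points of `K` at which a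
functional `⟪u, ·⟫`, `u ≠ 0`, is maximal on `K`) is strictly separated from `o` by one of the
hyperplanes `{x | ⟪h.1, x⟫ = h.2}` with `h ∈ H`. -/
def SeparatesFaces {d : ℕ} (K : Set (Sp d)) (o : Sp d) (H : Finset (Sp d × ℝ)) : Prop :=
  (∀ h ∈ H, h.1 ≠ 0) ∧
    ∀ u x₀ : Sp d, u ≠ 0 → x₀ ∈ K → (∀ y ∈ K, ⟪u, y⟫_ℝ ≤ ⟪u, x₀⟫_ℝ) →
      ∃ h ∈ H, ⟪h.1, o⟫_ℝ < h.2 ∧ ∀ x ∈ K, ⟪u, x⟫_ℝ = ⟪u, x₀⟫_ℝ → h.2 < ⟪h.1, x⟫_ℝ

/-- Fewer than `2^d` hyperplanes suffice: `s(K, o) < 2^d`. -/
def FewHyperplanes {d : ℕ} (K : Set (Sp d)) (o : Sp d) : Prop :=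
  ∃ H : Finset (Sp d × ℝ), SeparatesFaces K o H ∧ H.card < 2 ^ d

/-- The polar body of `K` about `o`. -/
def polarBody {d : ℕ} (K : Set (Sp d)) (o : Sp d) : Set (Sp d) := {v | ∀ y ∈ K, ⟪v, y - o⟫_ℝ ≤ 1}

/-- The covariance of the uniform measure of `P` is the identity. -/
def IsIsotropic {d : ℕ} (P : Set (Sp d)) : Prop := ∀ w : Sp d, ⨍ z in P, ⟪z, w⟫_ℝ ^ 2 = ‖w‖ ^ 2

/-- The mean of `g` for the standard Gaussian measure of `ℝ^d`. -/
noncomputable def gaussianMean {d : ℕ} (g : Sp d → ℝ) : ℝ :=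
  (∫ y : Sp d, g y * Real.exp (-(‖y‖ ^ 2 / 2))) / ∫ y : Sp d, Real.exp (-(‖y‖ ^ 2 / 2))

/-- `g` has type `p` with the constant `T`. -/
def HasType {d : ℕ} (g : Sp d → ℝ) (p T : ℝ) : Prop :=
  ∀ (m : ℕ) (x : Fin m → Sp d),
    (∑ δ : Fin m → Bool, g (∑ i, (if δ i then (1 : ℝ) else -1) • x i)) / 2 ^ m ≤
      T * (∑ i, g (x i) ^ p) ^ (1 / p)

/-- `g` has cotype `q` with the constant `B`. -/
def HasCotype {d : ℕ} (g : Sp d → ℝ) (q B : ℝ) : Prop :=
  ∀ (m : ℕ) (x : Fin m → Sp d), (∑ i, g (x i) ^ q) ^ (1 / q) ≤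
    B * Real.sqrt ((∑ δ : Fin m → Bool, g (∑ i, (if δ i then (1 : ℝ) else -1) • x i) ^ 2) / 2 ^ m)

/-- `P` has a linear image in `ℝ^n` between `[-κ, κ]^n` and `[-1, 1]^n`. -/
def HasCubicImage {d : ℕ} (P : Set (Sp d)) (n : ℕ) (κ : ℝ) : Prop :=
  ∃ p : Sp d →L[ℝ] Sp n, (∀ y : Sp n, (∀ i, |y i| ≤ κ) → y ∈ p '' P) ∧
    ∀ x ∈ P, ∀ i, |p x i| ≤ 1

/-- The support function of `K` about `o` is between `n` and `C n`. -/
def IsBetween {d : ℕ} (K : Set (Sp d)) (o : Sp d) (n : Sp d → ℝ) (C : ℝ) : Prop :=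
  (∀ u : Sp d, ∃ y ∈ K, n u ≤ ⟪u, y - o⟫_ℝ) ∧ ∀ u : Sp d, ∀ y ∈ K, ⟪u, y - o⟫_ℝ ≤ C * n u

/-- `n` is the support function of a zonoid about its centre. -/
def IsZonoidal {d : ℕ} (n : Sp d → ℝ) : Prop :=
  ∃ μ : Measure (Sp d), IsFiniteMeasure μ ∧ Integrable (fun x : Sp d => ‖x‖) μ ∧
    ∀ u, n u = ∫ x, |⟪u, x⟫_ℝ| ∂μ

/-- `G` is a lattice norm (or seminorm) on `ℝ^N`, `q`-concave with the constant `M`. -/
structure IsConcaveLatticeNorm (N : ℕ) (q M : ℝ) (G : (Fin N → ℝ) → ℝ) : Prop where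
  add_le : ∀ a b, G (a + b) ≤ G a + G b
  smul_eq : ∀ (c : ℝ) a, G (c • a) = |c| * G a
  mono : ∀ a b : Fin N → ℝ, (∀ j, |a j| ≤ |b j|) → G a ≤ G b
  concave : ∀ (m : ℕ) (v : Fin m → Fin N → ℝ), (∑ i, G (v i) ^ q) ^ (1 / q) ≤
    M * G (fun j => (∑ i, |v i j| ^ q) ^ (1 / q))

theorem avg {d : ℕ} (P : Set (Sp d)) (f : Sp d → ℝ) :
    ⨍ z in P, f z = ∫ z, f z ∂(Pool.Agent.N555.RZ.mP P) := by
  rw [average_eq', Measure.restrict_apply_univ]
  rfl

theorem gm_eq {d : ℕ} (g : Sp d → ℝ) : gm g = gaussianMean g := by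
  unfold gm gaussianMean
  rw [div_eq_inv_mul]

theorem bd_of {d : ℕ} {P : Set (Sp d)} (h : IsSymmetricBody P 0) : Bd P := by
  obtain ⟨h1, h2, h3, h4⟩ := h
  refine ⟨h1, h2, h3, fun x hx => ?_⟩
  simpa using h4 x hx

theorem iso_of {d : ℕ} {P : Set (Sp d)} (h : IsIsotropic P) : Iso P := by
  intro w
  rw [← avg]
  exact h w

theorem few_of_cover {d : ℕ} (K : Set (Sp d)) (o : Sp d) (ho : o ∈ interior K)
    (h : ∃ T : Finset (Sp d), polarBody K o ⊆ ⋃ t ∈ T, (fun x => t + x) '' interior (polarBody K o) ∧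
      T.card < 2 ^ d) : FewHyperplanes K o := by
  obtain ⟨T, hT1, hT2⟩ := h
  obtain ⟨H, hH, hsep⟩ := Pool.Agent.TH591.Lie.sep_of_cover K o ho T hT1
  exact ⟨H, hsep, lt_of_le_of_lt hH hT2⟩

theorem result :
    -- 1. the spread inequality
    (∀ (d : ℕ) (P : Set (Sp d)) (l : ℝ), IsSymmetricBody P 0 → IsIsotropic P → 1 ≤ l →
      gaussianMean (gauge P) ≤ l → 10 ^ 180 * l ^ 4 ≤ (d : ℝ) → ∀ w : Sp d,
      ⨍ z in P, (fderiv ℝ (gauge P) z w) ^ 2 ≤
        10 ^ 30 * l ^ ((2 : ℝ) / 3) / (d : ℝ) ^ ((1 : ℝ) / 6) * ‖w‖ ^ 2) ∧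
    (∀ (d : ℕ) (K : Set (Sp d)) (o : Sp d), 1 ≤ d → IsSymmetricBody K o →
      -- 2. the criterion
      (∀ l : ℝ, 1 ≤ l → IsIsotropic (polarBody K o) →
        gaussianMean (gauge (polarBody K o)) ≤ l → 10 ^ 180 * l ^ 4 ≤ (d : ℝ) →
        (∀ n : ℕ, 1 ≤ n → 10 ^ 94 * (n : ℝ) ^ 4 * l ^ ((2 : ℝ) / 3) * Real.log (d + 1) ^ 10 ≤
            (d : ℝ) ^ ((1 : ℝ) / 6) →
          FewHyperplanes K o ∨
            HasCubicImage (polarBody K o) n (1 / (10 ^ 10 * Real.log (d + 1) ^ 2))) ∧
        (∀ q B : ℝ, 2 ≤ q → 1 ≤ B → HasCotype (gauge (polarBody K o)) q B →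
          (10 ^ 7 * B * Real.log (d + 1)) ^ (17 * q) * (10 ^ 30 * l ^ ((2 : ℝ) / 3)) ≤
            (d : ℝ) ^ ((1 : ℝ) / 6) → FewHyperplanes K o)) ∧
      -- 3. type `p > 4/3` and finite cotype
      (∀ p q T B : ℝ, 4 / 3 < p → p ≤ 2 → 2 ≤ q → 1 ≤ T → 1 ≤ B →
        HasType (gauge (polarBody K o)) p T → HasCotype (gauge (polarBody K o)) q B →
        (10 ^ 8 * T * B * Real.log (d + 1)) ^ (120 * q) ≤ (d : ℝ) ^ (3 - 4 / p) →
        FewHyperplanes K o) ∧
      -- 4. bodies close to zonoids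
      (∀ (n : Sp d → ℝ) (C : ℝ), 1 ≤ C → IsZonoidal n → IsBetween K o n C →
        (10 ^ 8 * C * Real.log (d + 1)) ^ 240 ≤ (d : ℝ) → FewHyperplanes K o) ∧
      -- 5. bodies close to the polars of sections of the balls of `q`-concave lattices
      (∀ (q M C : ℝ) (N : ℕ) (G : (Fin N → ℝ) → ℝ) (x : Fin N → Sp d), 2 ≤ q → 1 ≤ M → 1 ≤ C →
        IsConcaveLatticeNorm N q M G → IsBetween K o (fun u => G fun j => ⟪u, x j⟫_ℝ) C →
        (10 ^ 8 * (M * C) * Real.log (d + 1)) ^ (120 * q) ≤ (d : ℝ) → FewHyperplanes K o)) := by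
  refine ⟨?_, ?_⟩
  · intro d P l hP hI hl hg hd w
    rw [avg]
    exact spr_ineq z_spr (bd_of hP) (iso_of hI) hl (by rwa [gm_eq]) hd w
  · intro d K o hd0 hK
    obtain ⟨k1, k2, k3, k4⟩ := hK
    have hP : Bd (polarBody K o) := bd_polar lpo k2 k1 k3 k4
    refine ⟨?_, ?_, ?_, ?_⟩
    · intro l hl hI hg hd
      have hd9 : (2 : ℝ) ≤ d := by
        refine le_trans ?_ hd
        have h1 : (1 : ℝ) ≤ l ^ 4 := one_le_pow₀ hl
        calc (2 : ℝ) ≤ 10 ^ 180 * 1 := by norm_num
          _ ≤ 10 ^ 180 * l ^ 4 := by gcongr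
      have hd2 : 2 ≤ d := by exact_mod_cast hd9
      refine ⟨fun n hn hnum => ?_, fun q B hq hB hco hn => ?_⟩
      · rcases dich z_spr n hP (iso_of hI) hd2 hn hl (by rw [gm_eq]; exact hg) hd hnum with h | h
        · exact Or.inl (few_of_cover K o k3 h)
        · exact Or.inr h
      refine few_of_cover K o k3 ?_
      have e : (fun x => (LinearEquiv.refl ℝ (Sp d)) x) '' polarBody K o = polarBody K o := by
        simp
      refine z_crt d (polarBody K o) (LinearEquiv.refl ℝ (Sp d)) l q B hP ?_ ?_ hl hd hq hB hco hn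
      · have h1 : Iso (polarBody K o) := iso_of hI
        have e' : (LinearEquiv.refl ℝ (Sp d)) '' polarBody K o = polarBody K o := e
        rw [e']
        exact h1
      · have e' : (LinearEquiv.refl ℝ (Sp d)) '' polarBody K o = polarBody K o := e
        rw [e', gm_eq]
        exact hg
    · intro p q T B hp hp2 hq hT hB hty hco hn
      have hd2 := two_le_of_num' hd0 hq hT hB hn
      exact few_of_cover K o k3 (typ z_crt tnu z_tgm tyi hP hd2 hp hp2 hq hT hB hty hco hn)
    · intro n C hC hz hb hn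
      have hn' : (10 ^ 8 * C * Real.log (d + 1)) ^ (120 * (2 : ℝ)) ≤ (d : ℝ) := by
        have e : (120 * (2 : ℝ)) = ((240 : ℕ) : ℝ) := by norm_num
        rw [e, Real.rpow_natCast]
        exact hn
      have hd2 := two_le_of_num le_rfl hC hd0 hn'
      exact few_of_cover K o k3 (zon z_crt num_ zgm zco zim lpo hd2 hC k2 k1 k3 k4 hz hb.1 hb.2 hn')
    · intro q M C N G x hq hM hC hG hb hn
      have hMC : 1 ≤ M * C := by nlinarith
      have hd2 := two_le_of_num hq hMC hd0 hn
      exact few_of_cover K o k3 (lat z_crt num_ z_lgm lco_ lia_ lpo hd2 hq hM hC k2 k1 k3 k4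
        ⟨hG.add_le, hG.smul_eq, hG.mono, hG.concave⟩ hb.1 hb.2 hn)

end Pool.Agent.Results.MP_5e7226_co.HighDimensionalSpaces
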