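import Mathlib
import Pool.Agent.T2h52.MS.Fin
import Pool.Agent.Y368.Lie.Matrix

set_option autoImplicit false

/-!
# MP_5e7226_co: Minkowski sums and integrals of low-dimensional convex sets

Let `K` be a convex body in `ℝ^d` (`d ≥ 2`) which is the Minkowski sum of finitely many compact convex
sets of dimension at most `n` (or a Minkowski integral of such sets). Neither the summands nor `K`
need be symmetric, and the interior point `o` need not be a centre of any kind. The result: if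
`K - o ⊆ -a (K - o)` then the faces of `K` can be separated from `o` by at most
`1 + 13 d log(2d²+2d+1) 2^d e^(-s)` hyperplanes, where `s = √(d/((n+1)(1+a))) / 18012`, and by less
than `2^d` if `s ≥ 5 + 2 log d`.

1. In general, `n + 1` may be replaced by the average `m` of the numbers `dim C_ω + 1` over the
   summands `C_ω`, weighted with their widths (take the direction in which it is largest), and `a` by
   the mean asymmetry: the average over `v` in the polar body `P` of `K` with respect to `o` of the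
   gauge of `-v`.
2. If `K - o₀ ⊆ -a (K - o₀)` then for all `o = o₀ + (1-η)(y-o₀)` with `y ∈ K`, `0 < η ≤ 1`, the theorem
   holds with `s = √(η d/(m(1+a))) / 18012`. So it gives less than `2^d` hyperplanes for all interior
   points except those in a shell along the boundary of relative width `C m (1+a) log²(d) / d`.
3. A sum of finitely many sets of dimension at most `n` has a point `o₀` with `K - o₀ ⊆ -n (K - o₀)`.
   Hence `s = √(η d) / (18012 (n+1))` for all `o = o₀ + (1-η)(y-o₀)`, without any symmetry.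
4. An arbitrary convex body `B` may be added, if its widths are at most `β` times those of
   `K = C_1 + … + C_N + B`; here `m = n + 1 + β(d+1)`, so `β = c/log²(d)` is allowed.
5. Zonoids with centre `p`: `s = √(η d) / 36024` for all `o = p + (1-η)(y-p)`, `y ∈ K`.
6. So, for given `n` and `η`, the conjecture is true in all sufficiently high dimensions for all
   sums of convex sets of dimension at most `n` and all interior points
   `o = o₀ + (1-θ)(y-o₀)`, `y ∈ K`, `η ≤ θ ≤ 1`.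

For centrally symmetric summands and `o` the centre, with `n` the largest dimension, this is the case
`q = 1` of the theorem `MP_eba1ef_gt.LqSumsOfSmallSpaces` of the starting files (with a better
constant there), applied to the polar body. Its proof needs the symmetry: it compares the marginal of
`e^(-g)` with its value at the origin, where an even log-concave function is largest. Here is the
new argument. Let `g = ∫ h_ω dμ(ω) - l` be the gauge of `P`, `h_ω` the support function of `C_ω`, and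
let `r` be the marginal of `e^(-g)` on the at most `n`-dimensional space of `C_ω`.
(a) For `0 ≤ s ≤ 1/(2(n+1))` and `θ = s/(1+s)` we substitute
`(x, v) → ((1-θ) x + θ v, θ x + (1-θ) v)` in the average of `D²h(x - s v)[v, v]` over independent
`x`, `v` with density `r`. By log-concavity `r(x) r(v)` does not decrease, without evenness;
`x - s v` becomes `(1-s) x`; by the homogeneity of `h`,
`D²h((1-s) x)[θ x + (1-θ) v, θ x + (1-θ) v] = ((1-θ)²/(1-s)) D²h(x)[v, v]`; and the Jacobian is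
`((1-s)/(1+s))^n ≥ c`. So the average of `D²h(x)[v, v]` is at most `C` times that of
`D²h(x - s v)[v, v]`, the integral of which over `0 ≤ s ≤ 1/(2(n+1))` is a difference of slopes
of `h`, at most `h(v) + h(-v)`. Hence the average of `D²h(x)[v, v]` is at most `C (n+1)` times the
average width. (This is done for second differences, as `h` need not be smooth.)
(b) Second derivatives and widths are additive; so the average of
`D²g(x)[v,v]` is at most `C m` times the average of `g(v) + g(-v)`, which is `(1+a)` times that of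
`g` at most. (c) Integrating by parts, the mean square of `Dg(x)[v]` over `x, v ∈ P` is at most
`11 m (1+a) / (2d)`. (d) So `P` has small flatness, and the covering theorem for bodies with small
flatness which need not be symmetric (`MP_eba1ef_gt.AsymmetricThinSlabs`) applies to `P`. The point
`o₀` in (3) comes from Helly's theorem.
-/

namespace Pool.Agent.Results.MP_5e7226_co.MinkowskiSumsOfSmallBodies

open MeasureTheory Module
open scoped InnerProductSpace Pointwise

universe u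

section
variable {E : Type*} [NormedAddCommGroup E] [InnerProductSpace ℝ E]

/-- `K` and `o` are separated by `H`: every face of `K` (the set of the points of `K` at which a
functional `⟪u, ·⟫`, `u ≠ 0`, is maximal on `K`) is strictly separated from `o` by one of the
hyperplanes `{x | ⟪h.1, x⟫ = h.2}` with `h ∈ H`. -/
def SeparatesFaces (K : Set E) (o : E) (H : Finset (E × ℝ)) : Prop :=
  (∀ h ∈ H, h.1 ≠ 0) ∧
    ∀ u x₀ : E, u ≠ 0 → x₀ ∈ K → (∀ y ∈ K, ⟪u, y⟫_ℝ ≤ ⟪u, x₀⟫_ℝ) →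
      ∃ h ∈ H, ⟪h.1, o⟫_ℝ < h.2 ∧ ∀ x ∈ K, ⟪u, x⟫_ℝ = ⟪u, x₀⟫_ℝ → h.2 < ⟪h.1, x⟫_ℝ

/-- The bounds of the theorem, in terms of the parameter `s`: at most
`1 + 13 d log(2d²+2d+1) 2^d e^(-s)` hyperplanes suffice, and less than `2^d` if
`s ≥ 5 + 2 log d`, where `d` is the dimension. -/
def FewHyperplanes (K : Set E) (o : E) (s : ℝ) : Prop :=
  ∃ H : Finset (E × ℝ), SeparatesFaces K o H ∧
    (H.card : ℝ) ≤ 1 + 13 * finrank ℝ E * Real.log (2 * finrank ℝ E ^ 2 + 2 * finrank ℝ E + 1)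
      * 2 ^ finrank ℝ E * Real.exp (-s) ∧
    (5 + 2 * Real.log (finrank ℝ E) ≤ s → H.card < 2 ^ finrank ℝ E)

/-- The support function of `C`. -/
noncomputable def supp (C : Set E) (x : E) : ℝ := sSup ((fun y => ⟪x, y⟫_ℝ) '' C)

/-- The width of `C` in the direction `x` (for unit vectors `x`). -/
noncomputable def width (C : Set E) (x : E) : ℝ := supp C x + supp C (-x)

/-- `C` is a nonempty compact convex set of dimension at most `n`. -/
def IsSmall (n : ℕ) (C : Set E) : Prop :=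
  Convex ℝ C ∧ IsCompact C ∧ C.Nonempty ∧ finrank ℝ (vectorSpan ℝ C) ≤ n

/-- `K` is, up to a translation, the Minkowski integral of compact convex sets `C ω` of dimension
at most `n ω` (its support function is the integral of their support functions); and the average
of `n ω + 1`, weighted with the widths of the `C ω`, is at most `m` in all directions. -/
def IsMinkowskiIntegral (K : Set E) (m : ℝ) : Prop :=
  ∃ (Ω : Type u) (_ : MeasurableSpace Ω) (μ : Measure Ω) (_ : SFinite μ) (p : E)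
    (C : Ω → Set E) (n : Ω → ℕ),
    (∀ ω, IsSmall (n ω) (C ω)) ∧ Measurable n ∧
    (∀ x, Measurable fun ω => supp (C ω) x) ∧ (∀ x, Integrable (fun ω => supp (C ω) x) μ) ∧
    (∀ x, supp K x = ⟪p, x⟫_ℝ + ∫ ω, supp (C ω) x ∂μ) ∧
    ∀ x, ∫⁻ ω, ENNReal.ofReal (((n ω : ℝ) + 1) * width (C ω) x) ∂μ
      ≤ ENNReal.ofReal (m * width K x)

/-- The polar body of `K` with respect to `o`. -/
def polar (K : Set E) (o : E) : Set E := {v | ∀ y ∈ K, ⟪v, y - o⟫_ℝ ≤ 1}

/-- `K - o ⊆ -a (K - o)`. -/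
def IsAsym (K : Set E) (o : E) (a : ℝ) : Prop := ∀ x ∈ K, o - a⁻¹ • (x - o) ∈ K

end

variable {d : ℕ}

/-- `K` is a convex body in `ℝ^d`. -/
def IsConvexBody (K : Set (EuclideanSpace ℝ (Fin d))) : Prop :=
  Convex ℝ K ∧ IsCompact K ∧ (interior K).Nonempty

/-- From coverings of the polar body to hyperplanes. -/
theorem few_of_cover (K : Set (EuclideanSpace ℝ (Fin d))) (o : EuclideanSpace ℝ (Fin d))
    (ho : o ∈ interior K) (hd : 2 ≤ d) (s : ℝ)
    (h : ∃ T : Finset (EuclideanSpace ℝ (Fin d)), TH591.Lie.polarAt K o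
        ⊆ ⋃ t ∈ T, (fun x => t + x) '' interior (TH591.Lie.polarAt K o) ∧
      (T.card : ℝ) ≤ 1 + 13 * d * Real.log (2 * d ^ 2 + 2 * d + 1)
        * 2 ^ d * Real.exp (-s)) : FewHyperplanes K o s := by
  obtain ⟨T, hT1, hT2⟩ := h
  obtain ⟨H, hH, hsep⟩ := TH591.Lie.sep_of_cover K o ho T hT1
  have hH' : (H.card : ℝ) ≤ T.card := by exact_mod_cast hH
  refine ⟨H, hsep, ?_, fun hs => ?_⟩
  · rw [finrank_euclideanSpace_fin]
    exact hH'.trans hT2
  · rw [finrank_euclideanSpace_fin] at hs ⊢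
    exact Y368.Lie.strict _ hd _ _ (hH'.trans hT2) hs

theorem mix {K : Set (EuclideanSpace ℝ (Fin d))} (o : EuclideanSpace ℝ (Fin d))
    {m : ℝ} {Ω : Type u} [MeasurableSpace Ω] (μ : Measure Ω) [SFinite μ]
    (p : EuclideanSpace ℝ (Fin d)) (C : Ω → Set (EuclideanSpace ℝ (Fin d))) (n : Ω → ℕ)
    (h1 : ∀ ω, IsSmall (n ω) (C ω)) (h2 : Measurable n)
    (h3 : ∀ x, Measurable fun ω => supp (C ω) x) (h4 : ∀ x, Integrable (fun ω => supp (C ω) x) μ)
    (h5 : ∀ x, supp K x = ⟪p, x⟫_ℝ + ∫ ω, supp (C ω) x ∂μ)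
    (h6 : ∀ x, ∫⁻ ω, ENNReal.ofReal (((n ω : ℝ) + 1) * width (C ω) x) ∂μ
      ≤ ENNReal.ofReal (m * width K x)) :
    T2h52.MS.Mix μ (T2h52.MS.gp K o) (fun ω x => supp (C ω) x)
      (innerₗ _ (o - p)) n m := by
  refine ⟨fun ω => T2h52.MS.supp_sub (h1 ω).2.1 (h1 ω).2.2.1,
    fun ω => T2h52.MS.supp_lip (h1 ω).2.1 (h1 ω).2.2.1, ?_, h4, fun x => ?_, fun ω => ?_, h2,
    fun x => ?_⟩
  · have h := measurable_uncurry_of_continuous_of_measurable
      (u := fun (x : EuclideanSpace ℝ (Fin d)) (ω : Ω) => supp (C ω) x)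
      (fun ω => T2h52.MS.supp_lip (h1 ω).2.1 (h1 ω).2.2.1) h3
    exact h.comp measurable_swap
  · show supp K x - ⟪o, x⟫_ℝ = _ - ⟪o - p, x⟫_ℝ
    rw [h5, inner_sub_left]
    ring
  · exact T2h52.MS.supp_lin (h1 ω).2.1 (h1 ω).2.2.1 (n ω) (h1 ω).2.2.2
  · refine (h6 x).trans (le_of_eq ?_)
    congr 2
    show supp K x + supp K (-x) = (supp K x - ⟪o, x⟫_ℝ) + (supp K (-x) - ⟪o, -x⟫_ℝ)
    rw [inner_neg_right]
    ring

/-- the mean asymmetry -/
theorem mean_asym {K : Set (EuclideanSpace ℝ (Fin d))} (hKc : IsCompact K)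
    (o : EuclideanSpace ℝ (Fin d)) (ho : o ∈ interior K) (a : ℝ)
    (h : ⨍ v in polar K o, gauge (polar K o) (-v) ≤ a) :
    0 ≤ a ∧ ∫⁻ x in {x | T2h52.MS.gp K o x ≤ 1}, ENNReal.ofReal (T2h52.MS.gp K o (-x))
      ≤ ENNReal.ofReal a * volume {x | T2h52.MS.gp K o x ≤ 1} := by
  have hne : K.Nonempty := ⟨o, interior_subset ho⟩
  have hg := T2h52.MS.gp_gau hKc ho
  have hPe : polar K o = {v | T2h52.MS.gp K o v ≤ 1} := T2h52.MS.polar_eq hKc hne
  have hPc : IsCompact (polar K o) := TH591.Lie.polarAt_compact K o ho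
  rw [hPe, T2h52.MS.gauge_eq hKc ho, setAverage_eq, smul_eq_mul] at h
  rw [hPe] at hPc
  have hV : 0 < (volume {x | T2h52.MS.gp K o x ≤ 1}).toReal :=
    ENNReal.toReal_pos (Measure.measure_pos_of_mem_nhds volume
      (T2h52.MS.polar_nhds hKc ho)).ne' hPc.measure_lt_top.ne
  have hi0 : 0 ≤ ∫ v in {x | T2h52.MS.gp K o x ≤ 1}, T2h52.MS.gp K o (-v) :=
    integral_nonneg fun v => hg.nonneg _
  have hV' : 0 < volume.real {x | T2h52.MS.gp K o x ≤ 1} := hV
  have ha : 0 ≤ a := le_trans (by positivity) h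
  refine ⟨ha, ?_⟩
  have hint : IntegrableOn (fun v => T2h52.MS.gp K o (-v)) {x | T2h52.MS.gp K o x ≤ 1} :=
    (hg.cont.comp continuous_neg).continuousOn.integrableOn_compact hPc
  rw [← ofReal_integral_eq_lintegral_ofReal hint (Filter.Eventually.of_forall fun v =>
    hg.nonneg _), ← ENNReal.ofReal_toReal hPc.measure_lt_top.ne, ← ENNReal.ofReal_mul ha]
  apply ENNReal.ofReal_le_ofReal
  rw [inv_mul_le_iff₀ hV'] at h
  rw [mul_comm]
  exact h

theorem part1 (hd : 2 ≤ d) {K : Set (EuclideanSpace ℝ (Fin d))} (hKc : IsCompact K) (m a : ℝ)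
    (hm : 0 < m) (hI : IsMinkowskiIntegral.{u} K m) (o : EuclideanSpace ℝ (Fin d))
    (ho : o ∈ interior K) (ha : 0 ≤ a)
    (h : ∫⁻ x in {x | T2h52.MS.gp K o x ≤ 1}, ENNReal.ofReal (T2h52.MS.gp K o (-x))
      ≤ ENNReal.ofReal a * volume {x | T2h52.MS.gp K o x ≤ 1}) :
    FewHyperplanes K o (√(d / (m * (1 + a))) / 18012) := by
  obtain ⟨Ω, _, μ, _, p, C, n, h1, h2, h3, h4, h5, h6⟩ := hI
  refine few_of_cover K o ho hd _ ?_
  exact T2h52.MS.cover_core hd hKc ho μ hm (mix o μ p C n h1 h2 h3 h4 h5 h6) a ha h _ rfl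

theorem part2 (hd : 2 ≤ d) {K : Set (EuclideanSpace ℝ (Fin d))} (hK : IsConvexBody K) (m a : ℝ)
    (hm : 0 < m) (ha : 0 < a) (hI : IsMinkowskiIntegral.{u} K m) (o : EuclideanSpace ℝ (Fin d))
    (hKa : IsAsym K o a) (η : ℝ) (hη : 0 < η) (hη1 : η ≤ 1) (y : EuclideanSpace ℝ (Fin d))
    (hy : y ∈ K) :
    FewHyperplanes K (o + (1 - η) • (y - o)) (√(η * d / (m * (1 + a))) / 18012) := by
  obtain ⟨hKv, hKc, hKi⟩ := hK
  have ho := T2h52.MS.asym_interior hKv hKi o a ha hKa
  have ho' := T2h52.MS.shift_interior hKv o y ho hy η hη hη1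
  have h1 := T2h52.MS.shift_asym hKv o y hy a ha hKa η hη hη1
  have ha' : 0 < (1 + a - η) / η := div_pos (by linarith) hη
  have h2 := part1 hd hKc m ((1 + a - η) / η) hm hI _ ho' ha'.le
    (T2h52.MS.asym_mean hKc ho' _ ha' h1)
  have e : (d : ℝ) / (m * (1 + (1 + a - η) / η)) = η * d / (m * (1 + a)) := by
    have : 1 + (1 + a - η) / η = (1 + a) / η := by
      field_simp
      ring
    rw [this]
    field_simp
  rw [e] at h2
  exact h2

/-- finite sums are Minkowski integrals -/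
theorem int_of_sum {K : Set (EuclideanSpace ℝ (Fin d))} (hKc : IsCompact K) (N : ℕ)
    (C : Fin N → Set (EuclideanSpace ℝ (Fin d))) (n : Fin N → ℕ) (hC : ∀ i, IsSmall (n i) (C i))
    (hK : K = ∑ i, C i) (m : ℝ)
    (hm : ∀ x, ∑ i, ((n i : ℝ) + 1) * width (C i) x ≤ m * width K x) :
    IsMinkowskiIntegral.{u} K m := by
  let e : ULift.{u} (Fin N) → Fin N := ULift.down
  refine ⟨ULift.{u} (Fin N), ⊤, Measure.count, inferInstance, 0, fun i => C (e i),
    fun i => n (e i), fun i => hC (e i), measurable_from_top, fun x => measurable_from_top,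
    fun x => ?_, fun x => ?_, fun x => ?_⟩
  · exact Integrable.of_finite
  · rw [inner_zero_left, zero_add, integral_fintype Integrable.of_finite, hK]
    have h1 := T2h52.MS.supp_sum C (fun i => (hC i).2.1) (fun i => (hC i).2.2.1) (hK ▸ hKc) x
    refine h1.trans (Eq.symm (Fintype.sum_equiv Equiv.ulift.{u} _ _ fun i => ?_))
    rw [Measure.real, Measure.count_singleton, ENNReal.toReal_one, one_smul]
    rfl
  · rw [lintegral_count, tsum_fintype, ← ENNReal.ofReal_sum_of_nonneg]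
    · apply ENNReal.ofReal_le_ofReal
      refine le_trans (le_of_eq ?_) (hm x)
      exact Fintype.sum_equiv Equiv.ulift.{u} _ _ fun i => rfl
    · intro i _
      have := (T2h52.MS.supp_sub (hC (e i)).2.1 (hC (e i)).2.2.1).width_nonneg x
      have h2 : 0 ≤ width (C (e i)) x := this
      positivity

theorem width_sum {K : Set (EuclideanSpace ℝ (Fin d))} (hKc : IsCompact K) (N : ℕ)
    (C : Fin N → Set (EuclideanSpace ℝ (Fin d))) (n : Fin N → ℕ) (hC : ∀ i, IsSmall (n i) (C i))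
    (hK : K = ∑ i, C i) (x : EuclideanSpace ℝ (Fin d)) :
    ∑ i, width (C i) x = width K x := by
  have h1 := fun x => T2h52.MS.supp_sum C (fun i => (hC i).2.1) (fun i => (hC i).2.2.1)
    (hK ▸ hKc) x
  have h2 : ∀ x, supp K x = ∑ i, supp (C i) x := fun x => by rw [hK]; exact h1 x
  unfold width
  rw [h2, h2, Finset.sum_add_distrib]

/-- sums of sets of dimension at most `n` -/
theorem int_of_small {K : Set (EuclideanSpace ℝ (Fin d))} (hKc : IsCompact K) (N n : ℕ)
    (C : Fin N → Set (EuclideanSpace ℝ (Fin d))) (hC : ∀ i, IsSmall n (C i))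
    (hK : K = ∑ i, C i) : IsMinkowskiIntegral.{u} K (n + 1) := by
  refine int_of_sum hKc N C (fun _ => n) hC hK _ fun x => ?_
  rw [← Finset.mul_sum, width_sum hKc N C (fun _ => n) hC hK]

theorem exists_centre (hd : 2 ≤ d) {K : Set (EuclideanSpace ℝ (Fin d))} (hK : IsConvexBody K)
    (N n : ℕ) (hn : 1 ≤ n) (C : Fin N → Set (EuclideanSpace ℝ (Fin d)))
    (hC : ∀ i, IsSmall n (C i)) (hKs : K = ∑ i, C i) :
    ∃ o ∈ interior K, IsAsym K o n ∧ ∀ η : ℝ, 0 < η → η ≤ 1 → ∀ y ∈ K,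
      FewHyperplanes K (o + (1 - η) • (y - o)) (√(η * d) / (18012 * (n + 1))) := by
  obtain ⟨hKv, hKc, hKi⟩ := hK
  have hn0 : (0 : ℝ) < n := by exact_mod_cast hn
  choose c hc hca using fun i => T2h52.MS.radon_point (C i) (hC i).1 (hC i).2.1 (hC i).2.2.1 n hn
    (hC i).2.2.2
  obtain ⟨-, h2⟩ := T2h52.MS.sum_asym C (n : ℝ) c hc hca
  rw [← hKs] at h2
  refine ⟨∑ i, c i, T2h52.MS.asym_interior hKv hKi _ n hn0 h2, h2, fun η hη hη1 y hy => ?_⟩
  have h3 := part2.{0} hd ⟨hKv, hKc, hKi⟩ (n + 1) n (by positivity) hn0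
    (int_of_small hKc N n C hC hKs) _ h2 η hη hη1 y hy
  have e : √(η * d / (((n : ℝ) + 1) * (1 + n))) / 18012 = √(η * d) / (18012 * (n + 1)) := by
    rw [show ((n : ℝ) + 1) * (1 + n) = (n + 1) ^ 2 by ring, Real.sqrt_div' _ (by positivity),
      Real.sqrt_sq (by positivity)]
    field_simp
  rw [e] at h3
  exact h3

/-- a sum with a remainder -/
theorem int_of_rem {K : Set (EuclideanSpace ℝ (Fin d))} (hKc : IsCompact K) (N n : ℕ)
    (C : Fin N → Set (EuclideanSpace ℝ (Fin d))) (hC : ∀ i, IsSmall n (C i))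
    (B : Set (EuclideanSpace ℝ (Fin d))) (hB : IsSmall d B) (β : ℝ)
    (hK : K = (∑ i, C i) + B) (hw : ∀ x, width B x ≤ β * width K x) :
    IsMinkowskiIntegral.{u} K (n + 1 + β * (d + 1)) := by
  let C' : Fin (N + 1) → Set (EuclideanSpace ℝ (Fin d)) := Fin.snoc C B
  let n' : Fin (N + 1) → ℕ := Fin.snoc (fun _ => n) d
  have hC' : ∀ i, IsSmall (n' i) (C' i) := by
    intro i
    refine Fin.lastCases ?_ (fun i => ?_) i
    · simp only [C', n', Fin.snoc_last]
      exact hB
    · simp only [C', n', Fin.snoc_castSucc]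
      exact hC i
  have hK' : K = ∑ i, C' i := by
    rw [Fin.sum_univ_castSucc]
    simp only [C', Fin.snoc_castSucc, Fin.snoc_last]
    exact hK
  refine int_of_sum hKc (N + 1) C' n' hC' hK' _ fun x => ?_
  have h1 := width_sum hKc (N + 1) C' n' hC' hK' x
  rw [Fin.sum_univ_castSucc] at h1 ⊢
  simp only [C', n', Fin.snoc_castSucc, Fin.snoc_last] at h1 ⊢
  rw [← Finset.mul_sum]
  have h2 := hw x
  have h3 : 0 ≤ width B x :=
    (T2h52.MS.supp_sub hB.2.1 hB.2.2.1).width_nonneg x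
  have h4 : ((d : ℝ) + 1) * width B x ≤ (d + 1) * (β * width K x) := by gcongr
  have h5 : 0 ≤ ((n : ℝ) + 1) * width B x := by positivity
  have h6 : ((n : ℝ) + 1) * ∑ i, width (C i) x = (n + 1) * width K x - (n + 1) * width B x := by
    rw [← h1]
    ring
  rw [h6]
  linarith

/-- segments -/
theorem supp_segment {E : Type*} [NormedAddCommGroup E] [InnerProductSpace ℝ E] (u x : E) :
    supp (segment ℝ (-u) u) x = |⟪u, x⟫_ℝ| := by
  have hc : IsCompact (segment ℝ (-u) u) := by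
    have e : segment ℝ (-u) u = convexHull ℝ {-u, u} := (convexHull_pair _ _).symm
    rw [e]
    exact Set.Finite.isCompact_convexHull ℝ (Set.toFinite _)
  have hs : ∀ y ∈ segment ℝ (-u) u, ⟪x, y⟫_ℝ ≤ |⟪u, x⟫_ℝ| := by
    rintro y ⟨a, b, ha, hb, hab, rfl⟩
    rw [inner_add_right, real_inner_smul_right, real_inner_smul_right, inner_neg_right,
      real_inner_comm x u]
    have h1 : -⟪x, u⟫_ℝ ≤ |⟪x, u⟫_ℝ| := neg_le_abs _
    have h2 : ⟪x, u⟫_ℝ ≤ |⟪x, u⟫_ℝ| := le_abs_self _
    calc a * -⟪x, u⟫_ℝ + b * ⟪x, u⟫_ℝ ≤ a * |⟪x, u⟫_ℝ| + b * |⟪x, u⟫_ℝ| := by gcongr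
      _ = |⟪x, u⟫_ℝ| := by rw [← add_mul, hab, one_mul]
  apply le_antisymm
  · obtain ⟨y, hy, h1, -⟩ := T2h52.MS.supp_att hc ⟨u, right_mem_segment ℝ _ _⟩ x
    refine (le_of_eq h1).trans (hs y hy)
  · rcases abs_choice ⟪u, x⟫_ℝ with h | h
    · rw [h, real_inner_comm]
      exact T2h52.MS.le_supp hc x (right_mem_segment ℝ _ _)
    · rw [h, real_inner_comm, ← inner_neg_right]
      exact T2h52.MS.le_supp hc x (left_mem_segment ℝ _ _)

theorem small_segment (u : EuclideanSpace ℝ (Fin d)) : IsSmall 1 (segment ℝ (-u) u) := by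
  refine ⟨convex_segment _ _, ?_, ⟨u, right_mem_segment ℝ _ _⟩, ?_⟩
  · have e : segment ℝ (-u) u = convexHull ℝ {-u, u} := (convexHull_pair _ _).symm
    rw [e]
    exact Set.Finite.isCompact_convexHull ℝ (Set.toFinite _)
  · have h1 : vectorSpan ℝ (segment ℝ (-u) u) ≤ Submodule.span ℝ {u} := by
      refine Submodule.span_le.2 ?_
      rintro _ ⟨y, ⟨a, b, -, -, -, rfl⟩, z, ⟨a', b', -, -, -, rfl⟩, rfl⟩
      refine Submodule.mem_span_singleton.2 ⟨b - a - (b' - a'), ?_⟩
      show _ = (a • -u + b • u) - (a' • -u + b' • u)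
      module
    refine (Submodule.finrank_mono h1).trans ?_
    refine (finrank_span_le_card ({u} : Set (EuclideanSpace ℝ (Fin d)))).trans ?_
    simp

/-- zonoids are symmetric -/
theorem zonoid_asym {K : Set (EuclideanSpace ℝ (Fin d))} (hK : IsConvexBody K)
    (p : EuclideanSpace ℝ (Fin d)) (f : EuclideanSpace ℝ (Fin d) → ℝ) (hf : ∀ x, f (-x) = f x)
    (h : ∀ x, supp K x = ⟪p, x⟫_ℝ + f x) : IsAsym K p 1 := by
  obtain ⟨hKv, hKc, hKi⟩ := hK
  intro x hx
  by_contra hn
  obtain ⟨φ, u, h1, h2⟩ := geometric_hahn_banach_closed_point hKv hKc.isClosed hn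
  set w := (InnerProductSpace.toDual ℝ (EuclideanSpace ℝ (Fin d))).symm φ with hw
  have hφ : ∀ z, φ z = ⟪w, z⟫_ℝ := fun z => by
    rw [hw, InnerProductSpace.toDual_symm_apply]
  rw [hφ] at h2
  obtain ⟨y, hy, h3, -⟩ := T2h52.MS.supp_att hKc ⟨x, hx⟩ w
  have h4 := h1 y hy
  rw [hφ] at h4
  have h5 : supp K w = ⟪w, y⟫_ℝ := h3
  have h6 : ⟪-w, x⟫_ℝ ≤ supp K (-w) := T2h52.MS.le_supp hKc (-w) hx
  rw [h, hf, inner_neg_left, inner_neg_right] at h6
  rw [h] at h5
  rw [inv_one, one_smul, inner_sub_right, inner_sub_right, real_inner_comm p w] at h2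
  linarith

/-- The condition in high dimensions. -/
theorem exists_dim (C : ℝ) (hC : 0 < C) : ∃ d₀ : ℕ, ∀ d : ℕ, d₀ ≤ d →
    5 + 2 * Real.log d ≤ √d / C := by
  have h1 : Filter.Tendsto (fun d : ℕ => √(d : ℝ)) Filter.atTop Filter.atTop :=
    Real.tendsto_sqrt_atTop.comp tendsto_natCast_atTop_atTop
  have h2 : ∀ᶠ d : ℕ in Filter.atTop, 10 * C ≤ √(d : ℝ) := h1.eventually_ge_atTop _
  have h3 : ∀ᶠ x : ℝ in Filter.atTop, ‖Real.log x‖ ≤ (4 * C)⁻¹ * ‖x ^ (1 / 2 : ℝ)‖ :=
    (isLittleO_log_rpow_atTop (by norm_num : (0 : ℝ) < 1 / 2)).bound (by positivity)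
  have h4 : ∀ᶠ d : ℕ in Filter.atTop,
      ‖Real.log (d : ℝ)‖ ≤ (4 * C)⁻¹ * ‖(d : ℝ) ^ (1 / 2 : ℝ)‖ :=
    tendsto_natCast_atTop_atTop.eventually h3
  obtain ⟨d₀, hd₀⟩ := (h2.and h4).exists_forall_of_atTop
  refine ⟨d₀, fun d hd => ?_⟩
  obtain ⟨h5, h6⟩ := hd₀ d hd
  rw [← Real.sqrt_eq_rpow, Real.norm_of_nonneg (Real.sqrt_nonneg _)] at h6
  have h7 := (Real.le_norm_self _).trans h6
  have h8 : 10 ≤ √(d : ℝ) / C := by rw [le_div_iff₀ hC]; exact h5
  have h9 : (4 * C)⁻¹ * √(d : ℝ) = √(d : ℝ) / C / 4 := by field_simp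
  rw [h9] at h7
  linarith

/-- **Main theorem.** -/
theorem result :
    (∀ (d : ℕ) (K : Set (EuclideanSpace ℝ (Fin d))), 2 ≤ d → IsConvexBody K →
      -- 1. Minkowski integrals of convex sets, all interior points, mean asymmetry
      (∀ m a : ℝ, 0 < m → IsMinkowskiIntegral.{u} K m → ∀ o ∈ interior K,
        ⨍ v in polar K o, gauge (polar K o) (-v) ≤ a →
        FewHyperplanes K o (√(d / (m * (1 + a))) / 18012)) ∧
      -- 2. the same with the asymmetry with respect to some point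
      (∀ m a : ℝ, 0 < m → 0 < a → IsMinkowskiIntegral.{u} K m → ∀ o₀, IsAsym K o₀ a →
        ∀ η : ℝ, 0 < η → η ≤ 1 → ∀ y ∈ K,
        FewHyperplanes K (o₀ + (1 - η) • (y - o₀)) (√(η * d / (m * (1 + a))) / 18012)) ∧
      -- 3. finite sums of sets of dimension at most `n`
      (∀ (N n : ℕ) (C : Fin N → Set (EuclideanSpace ℝ (Fin d))), 1 ≤ n →
        (∀ i, IsSmall n (C i)) → K = ∑ i, C i →
        ∃ o₀ ∈ interior K, IsAsym K o₀ n ∧ ∀ η : ℝ, 0 < η → η ≤ 1 → ∀ y ∈ K,
          FewHyperplanes K (o₀ + (1 - η) • (y - o₀)) (√(η * d) / (18012 * (n + 1)))) ∧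
      -- 4. finite sums with an arbitrary remainder
      (∀ (N n : ℕ) (C : Fin N → Set (EuclideanSpace ℝ (Fin d)))
        (B : Set (EuclideanSpace ℝ (Fin d))) (β a : ℝ),
        (∀ i, IsSmall n (C i)) → IsSmall d B → K = (∑ i, C i) + B →
        0 ≤ β → (∀ x, width B x ≤ β * width K x) → 0 < a → ∀ o₀, IsAsym K o₀ a →
        ∀ η : ℝ, 0 < η → η ≤ 1 → ∀ y ∈ K,
        FewHyperplanes K (o₀ + (1 - η) • (y - o₀))
          (√(η * d / ((n + 1 + β * (d + 1)) * (1 + a))) / 18012)) ∧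
      -- 5. zonoids
      (∀ (p : EuclideanSpace ℝ (Fin d)) (μ : Measure (EuclideanSpace ℝ (Fin d))) [SFinite μ],
        (∀ x, Integrable (fun u => |⟪u, x⟫_ℝ|) μ) →
        (∀ x, supp K x = ⟪p, x⟫_ℝ + ∫ u, |⟪u, x⟫_ℝ| ∂μ) →
        ∀ η : ℝ, 0 < η → η ≤ 1 → ∀ y ∈ K,
        FewHyperplanes K (p + (1 - η) • (y - p)) (√(η * d) / 36024))) ∧
    -- 6. high dimensions
    (∀ (n : ℕ) (η : ℝ), 1 ≤ n → 0 < η → ∃ d₀ : ℕ, ∀ d : ℕ, d₀ ≤ d →
      ∀ K : Set (EuclideanSpace ℝ (Fin d)), IsConvexBody K →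
      ∀ (N : ℕ) (C : Fin N → Set (EuclideanSpace ℝ (Fin d))),
      (∀ i, IsSmall n (C i)) → K = ∑ i, C i →
      ∃ o₀ ∈ interior K, IsAsym K o₀ n ∧ ∀ θ : ℝ, η ≤ θ → θ ≤ 1 → ∀ y ∈ K,
        ∃ H : Finset (EuclideanSpace ℝ (Fin d) × ℝ),
          SeparatesFaces K (o₀ + (1 - θ) • (y - o₀)) H ∧ H.card < 2 ^ d) := by
  refine ⟨fun d K hd hK => ⟨?_, ?_, ?_, ?_, ?_⟩, ?_⟩
  · intro m a hm hI o ho h
    obtain ⟨h1, h2⟩ := mean_asym hK.2.1 o ho a h
    exact part1 hd hK.2.1 m a hm hI o ho h1 h2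
  · intro m a hm ha hI o ho η hη hη1 y hy
    exact part2 hd hK m a hm ha hI o ho η hη hη1 y hy
  · intro N n C hn hC hKs
    exact exists_centre hd hK N n hn C hC hKs
  · intro N n C B β a hC hB hKs hβ hw ha o ho η hη hη1 y hy
    exact part2.{0} hd hK _ a (by positivity) ha
      (int_of_rem hK.2.1 N n C hC B hB β hKs hw) o ho η hη hη1 y hy
  · intro p μ _ hint hsupp η hη hη1 y hy
    have hI : IsMinkowskiIntegral.{0} K 2 := by
      refine ⟨EuclideanSpace ℝ (Fin d), _, μ, inferInstance, p, fun u => segment ℝ (-u) u,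
        fun _ => 1, small_segment, measurable_const, fun x => ?_, fun x => ?_, fun x => ?_,
        fun x => ?_⟩
      · simp only [supp_segment]
        have : Continuous fun u : EuclideanSpace ℝ (Fin d) => |⟪u, x⟫_ℝ| := by fun_prop
        exact this.measurable
      · simp only [supp_segment]
        exact hint x
      · simp only [supp_segment]
        exact hsupp x
      · have h1 : ∀ u : EuclideanSpace ℝ (Fin d), (((1 : ℕ) : ℝ) + 1) *
            width (segment ℝ (-u) u) x = 4 * |⟪u, x⟫_ℝ| := by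
          intro u
          unfold width
          rw [supp_segment, supp_segment, inner_neg_right, abs_neg]
          push_cast
          ring
        simp only [h1]
        rw [← ofReal_integral_eq_lintegral_ofReal ((hint x).const_mul 4)
          (Filter.Eventually.of_forall fun u => by positivity), integral_const_mul]
        apply ENNReal.ofReal_le_ofReal
        unfold width
        rw [hsupp, hsupp, inner_neg_right]
        simp only [inner_neg_right, abs_neg]
        linarith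
    have hA : IsAsym K p 1 := zonoid_asym hK p (fun x => ∫ u, |⟪u, x⟫_ℝ| ∂μ)
      (fun x => by simp only [inner_neg_right, abs_neg]) hsupp
    have h1 := part2 hd hK 2 1 (by norm_num) one_pos hI p hA η hη hη1 y hy
    have e : √(η * d / (2 * (1 + 1))) / 18012 = √(η * d) / 36024 := by
      rw [show (2 : ℝ) * (1 + 1) = 2 ^ 2 by norm_num, Real.sqrt_div' _ (by positivity),
        Real.sqrt_sq (by norm_num)]
      ring
    rw [e] at h1
    exact h1
  · intro n η hn hη
    obtain ⟨d₀, hd₀⟩ := exists_dim (18012 * (n + 1) / √η) (by positivity)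
    refine ⟨max d₀ 2, fun d hd K hK N C hC hKs => ?_⟩
    have hd2 : 2 ≤ d := (le_max_right _ _).trans hd
    obtain ⟨o, ho, hoa, h⟩ := exists_centre hd2 hK N n hn C hC hKs
    refine ⟨o, ho, hoa, fun θ hθ hθ1 y hy => ?_⟩
    have hθ0 : 0 < θ := hη.trans_le hθ
    obtain ⟨H, hH, -, hs⟩ := h θ hθ0 hθ1 y hy
    rw [finrank_euclideanSpace_fin] at hs
    refine ⟨H, hH, hs ((hd₀ d ((le_max_left _ _).trans hd)).trans ?_)⟩
    have e : √(d : ℝ) / (18012 * (n + 1) / √η) = √(η * d) / (18012 * (n + 1)) := by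
      rw [Real.sqrt_mul hη.le]
      field_simp
    rw [e]
    gcongr

end Pool.Agent.Results.MP_5e7226_co.MinkowskiSumsOfSmallBodies
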